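import Mathlib
import Pool.Agent.Lib.MP_cea741_ag.ArcA

/-!
# The nodal cubic and the general collision

Notation. `star F = F(t^2 - t, t^3 - t^2 + z)` in `R[t][z]`; the nodal cubic is
`y^2 - x y - x^3`, parametrised by `x = t^2 - t`, `y = t^3 - t^2`.
-/

namespace MP_cea741_ag.Nod

open Polynomial MP_cea741_ag

noncomputable section

/-- `F*(t,z) = F(t^2 - t, t^3 - t^2 + z)` as an element of `R[t][z]` (outer variable `z`). -/
def star {R : Type*} [CommRing R] : MvPolynomial (Fin 2) R →+* R[X][X] :=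
  MvPolynomial.eval₂Hom ((C : R[X] →+* R[X][X]).comp C)
    ![C (X ^ 2 - X), X + C (X ^ 3 - X ^ 2)]

/-- the coefficient of `t^i z^j` in `F*`. -/
def sc {R : Type*} [CommRing R] (F : MvPolynomial (Fin 2) R) (i j : ℕ) : R :=
  ((star F).coeff j).coeff i

/-- the nodal cubic `y^2 - x y - x^3` (`x = X 0`, `y = X 1`). -/
def nodal (R : Type*) [CommRing R] : MvPolynomial (Fin 2) R :=
  MvPolynomial.X 1 ^ 2 - MvPolynomial.X 0 * MvPolynomial.X 1 - MvPolynomial.X 0 ^ 3

/-- the coefficient of `Z^b ξ^n` in `X^(N+i-j) Y^j` for `X = 1 + ξ`, `Y = 1 + s X^M + Z`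
(if `j ≤ N`). -/
def kern {R : Type*} [CommRing R] (s : R) (N M i j b n : ℕ) : R :=
  ∑ l ∈ Finset.range (N + 1),
    ((j.choose l * l.choose b * (N + i - j + M * (l - b)).choose n : ℕ) : R) * s ^ (l - b)

/-- The polynomial `∑ h i j X^(N+i-j) Y^j` has order at least `r m` along the arc
`Y = 1 + s X^M` at `X = 1` (more precisely it lies in the `m`-th power of `(ξ^r, Z)`). -/
def OrdCond {R : Type*} [CommRing R] (s : R) (r m N M : ℕ) (h : ℕ → ℕ → R) : Prop :=
  ∀ b < m, ∀ n < r * (m - b),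
    ∑ i ∈ Finset.range (N + 1), ∑ j ∈ Finset.range (N + 1), h i j * kern s N M i j b n = 0

/-- the `n`-th moment at `1`: the coefficient of `(X-1)^n` in the Taylor expansion at `1`. -/
def mom {R : Type*} [CommRing R] (n : ℕ) (P : R[X]) : R := P.sum fun i a => a * (i.choose n : R)

/-- `W h l n = ∑ (h i j)_l (j choose n) X^(N+i-j)`. -/
def W {R : Type*} [CommRing R] (N : ℕ) (h : ℕ → ℕ → R[X]) (l n : ℕ) : R[X] :=
  ∑ i ∈ Finset.range (N + 1), ∑ j ∈ Finset.range (N + 1),
    C ((h i j).coeff l * (j.choose n : R)) * X ^ (N + i - j)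

end

end MP_cea741_ag.Nod
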