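import Mathlib
import Pool.Agent.Lib.MP_cea741_ag.Nod.Defs

namespace MP_cea741_ag.Nod

open Polynomial MP_cea741_ag

theorem n6_mom_eq {R : Type*} [CommRing R] (n : ℕ) (P : R[X]) :
    mom n P = (taylor 1 P).coeff n := by
  rw [taylor_coeff, hasseDeriv_apply, mom, Polynomial.sum_def, Polynomial.sum_def,
    eval_finsetSum]
  refine Finset.sum_congr rfl fun i _ => ?_
  rw [eval_monomial, one_pow, mul_one, mul_comm]

/-- Taylor expansion at `1`: use `X_sub_C_pow_dvd_iff`, `taylor_coeff`/`hasseDeriv_apply`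
(`mom n P = (hasseDeriv n P).eval 1 = (taylor 1 P).coeff n`). -/
theorem dvd_iff_mom {R : Type*} [CommRing R] (l : ℕ) (P : R[X]) :
    (X - 1) ^ l ∣ P ↔ ∀ n < l, mom n P = 0 := by
  rw [← C_1, X_sub_C_pow_dvd_iff, X_pow_dvd_iff]
  refine forall_congr' fun n => imp_congr_right fun _ => ?_
  rw [n6_mom_eq, taylor_apply]

/-- (`P = X^a Q` with `a = natTrailingDegree P`; `X` and `X-1` are coprime, so
`(X-1)^l ∣ Q`, and `natDegree Q = natDegree P - a`.) -/
theorem gap_of_dvd {R : Type*} [CommRing R] [IsDomain R] (l : ℕ) (P : R[X]) (hP : P ≠ 0)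
    (h : (X - 1) ^ l ∣ P) : P.natTrailingDegree + l ≤ P.natDegree := by
  obtain ⟨Q, hQ⟩ : X ^ P.natTrailingDegree ∣ P := by
    rw [X_pow_dvd_iff]
    exact fun d hd => coeff_eq_zero_of_lt_natTrailingDegree hd
  have hQ0 : Q ≠ 0 := by
    intro h0
    apply hP
    rw [hQ, h0, mul_zero]
  have hco : IsCoprime ((X - 1 : R[X]) ^ l) (X ^ P.natTrailingDegree) := by
    apply IsCoprime.pow
    exact ⟨-1, 1, by ring⟩
  have hd : (X - 1 : R[X]) ^ l ∣ Q := by
    apply hco.dvd_of_dvd_mul_left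
    rw [← hQ]
    exact h
  have h1 : ((X - 1 : R[X]) ^ l).natDegree = l := by
    rw [← C_1, natDegree_pow, natDegree_X_sub_C, mul_one]
  have h2 : l ≤ Q.natDegree := by
    rw [← h1]
    exact natDegree_le_of_dvd hd hQ0
  have h3 : P.natDegree = P.natTrailingDegree + Q.natDegree := by
    conv_lhs => rw [hQ]
    rw [natDegree_mul (pow_ne_zero _ X_ne_zero) hQ0, natDegree_X_pow]
  omega

theorem mom_gap {R : Type*} [CommRing R] [IsDomain R] (l : ℕ) (P : R[X]) (hP : P ≠ 0)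
    (h : ∀ n < l, mom n P = 0) : P.natTrailingDegree + l ≤ P.natDegree :=
  gap_of_dvd l P hP ((dvd_iff_mom l P).2 h)

/-- all moments zero. -/
theorem eq_zero_of_mom {R : Type*} [CommRing R] [IsDomain R] (P : R[X])
    (h : ∀ n, mom n P = 0) : P = 0 := by
  by_contra hP
  have := mom_gap (P.natDegree + 1) P hP (fun n _ => h n)
  omega

end MP_cea741_ag.Nod
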