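import Mathlib
import Pool.Agent.Lib.MP_cea741_ag.Nod.N6

namespace MP_cea741_ag.Nod

open Polynomial MP_cea741_ag

/-- `mom n` as an additive homomorphism. -/
noncomputable def n10_mom {R : Type*} [CommRing R] (n : ℕ) : R[X] →+ R where
  toFun := mom n
  map_zero' := by simp [mom]
  map_add' P Q := by
    unfold mom
    exact Polynomial.sum_add_index P Q _ (fun i => by simp) (fun i a b => by ring)

theorem n10_mom_CX {R : Type*} [CommRing R] (n : ℕ) (a : R) (E : ℕ) :
    n10_mom n (C a * X ^ E) = a * (E.choose n : R) := by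
  change mom n (C a * X ^ E) = _
  unfold mom
  rw [Polynomial.C_mul_X_pow_eq_monomial, Polynomial.sum_monomial_index]
  simp

/-- The order condition passes to the lowest power of `σ = X` after `Y = 1 + σ ψ`.
Proof. By `dvd_iff_mom` it is enough that `mom n (∑ ...) = 0` for `n < r (m-b)`. If `μ < b` all
summands with `n' ≤ μ` have `choose n' b = 0`. Otherwise take the coefficient of `σ^(μ-b)` in the
identity `hc b hb n hn` (`σ = X`):
`∑ i j l, (h i j).coeff (μ - l) * choose j l * choose l b * choose (N+i-j+M(l-b)) n = 0` over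
`b ≤ l ≤ μ`, and `mom n (C a * X^E) = a * choose E n`, mom additive. -/
theorem W_dvd {R : Type*} [CommRing R] (r m N M : ℕ) (h : ℕ → ℕ → R[X])
    (hc : OrdCond (X : R[X]) r m N M h) (μ b : ℕ) (hb : b < m) :
    (X - 1) ^ (r * (m - b)) ∣ ∑ n ∈ Finset.range (N + 1),
      ((n.choose b : ℕ) : R[X]) * X ^ (M * (n - b)) * (if n ≤ μ then W N h (μ - n) n else 0) := by
  rw [dvd_iff_mom]
  intro n' hn'
  change n10_mom n' _ = 0
  rw [map_sum]
  -- each summand
  have h1 : ∀ n ∈ Finset.range (N + 1), n10_mom n' (((n.choose b : ℕ) : R[X]) * X ^ (M * (n - b)) *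
      (if n ≤ μ then W N h (μ - n) n else 0)) =
      ∑ i ∈ Finset.range (N + 1), ∑ j ∈ Finset.range (N + 1),
        (if n ≤ μ then ((j.choose n * n.choose b * (N + i - j + M * (n - b)).choose n' : ℕ) : R) *
          (h i j).coeff (μ - n) else 0) := by
    intro n _
    by_cases hn : n ≤ μ
    · simp only [if_pos hn]
      unfold W
      rw [Finset.mul_sum, map_sum]
      refine Finset.sum_congr rfl fun i _ => ?_
      rw [Finset.mul_sum, map_sum]
      refine Finset.sum_congr rfl fun j _ => ?_
      have e : ((n.choose b : ℕ) : R[X]) * X ^ (M * (n - b)) *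
          (C ((h i j).coeff (μ - n) * (j.choose n : R)) * X ^ (N + i - j)) =
          C (((n.choose b : ℕ) : R) * ((h i j).coeff (μ - n) * (j.choose n : R))) *
            X ^ (N + i - j + M * (n - b)) := by
        rw [pow_add, C_mul (a := ((n.choose b : ℕ) : R)), Polynomial.C_eq_natCast]
        ring
      rw [e, n10_mom_CX]
      push_cast
      ring
    · simp [hn]
  rw [Finset.sum_congr rfl h1]
  -- reorder the sums
  rw [Finset.sum_comm]
  rw [Finset.sum_congr rfl (fun i _ => Finset.sum_comm)]
  by_cases hμ : b ≤ μ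
  · have h2 := congrArg (fun P : R[X] => P.coeff (μ - b)) (hc b hb n' hn')
    simp only [Polynomial.finsetSum_coeff, Polynomial.coeff_zero] at h2
    refine Eq.trans ?_ h2
    refine Finset.sum_congr rfl fun i _ => Finset.sum_congr rfl fun j _ => ?_
    unfold kern
    rw [Finset.mul_sum, Polynomial.finsetSum_coeff]
    refine Finset.sum_congr rfl fun n _ => ?_
    rw [← Polynomial.C_eq_natCast, ← mul_assoc, Polynomial.coeff_mul_X_pow', mul_comm (h i j),
      Polynomial.coeff_C_mul]
    by_cases hn : n < b
    · rw [Nat.choose_eq_zero_of_lt hn]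
      simp
    · by_cases hnm : n ≤ μ
      · rw [if_pos hnm, if_pos (by omega)]
        congr 2
        omega
      · rw [if_neg hnm, if_neg (by omega)]
  · refine Finset.sum_eq_zero fun i _ => Finset.sum_eq_zero fun j _ =>
      Finset.sum_eq_zero fun n _ => ?_
    by_cases hn : n ≤ μ
    · rw [if_pos hn, Nat.choose_eq_zero_of_lt (show n < b by omega)]
      simp
    · rw [if_neg hn]

end MP_cea741_ag.Nod
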