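import Mathlib
import Pool.Agent.Lib.MP_cea741_ag.Nod.N6

namespace MP_cea741_ag.Nod

open Polynomial MP_cea741_ag

theorem n9_mom {R : Type*} [CommRing R] (n : ℕ) (P : R[X]) :
    mom n P = (hasseDeriv n P).eval 1 := by
  rw [mom, hasseDeriv_apply, Polynomial.sum_def, Polynomial.sum_def, eval_finsetSum]
  refine Finset.sum_congr rfl fun i _ => ?_
  rw [eval_monomial, one_pow, mul_one, mul_comm]

theorem n9_mom_sum {R : Type*} [CommRing R] (n : ℕ) {ι : Type*} (s : Finset ι) (f : ι → R[X]) :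
    mom n (∑ i ∈ s, f i) = ∑ i ∈ s, mom n (f i) := by
  simp only [n9_mom, map_sum, eval_finsetSum]

theorem n9_mom_monomial {R : Type*} [CommRing R] (n j : ℕ) (c : R) :
    mom n (monomial j c) = c * (j.choose n : R) := by
  rw [n9_mom, hasseDeriv_monomial, eval_monomial, one_pow, mul_one, mul_comm]

theorem n9_mom_zero {R : Type*} [CommRing R] (n : ℕ) : mom n (0 : R[X]) = 0 := by
  rw [n9_mom, map_zero, eval_zero]

/-- the polynomial which collects the terms with exponent `E` -/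
noncomputable def n9a {R : Type*} [CommRing R] (N : ℕ) (h : ℕ → ℕ → R[X]) (l E : ℕ) : R[X] :=
  ∑ i ∈ Finset.range (N + 1), ∑ j ∈ Finset.range (N + 1),
    if N + i - j = E then monomial j ((h i j).coeff l) else 0

theorem n9_mom_a {R : Type*} [CommRing R] (N : ℕ) (h : ℕ → ℕ → R[X]) (l E n : ℕ) :
    mom n (n9a N h l E) = (W N h l n).coeff E := by
  rw [n9a, n9_mom_sum, W, finsetSum_coeff]
  refine Finset.sum_congr rfl fun i _ => ?_
  rw [n9_mom_sum, finsetSum_coeff]
  refine Finset.sum_congr rfl fun j _ => ?_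
  rw [coeff_C_mul_X_pow]
  by_cases hE : N + i - j = E
  · rw [if_pos hE, if_pos hE.symm, n9_mom_monomial]
  · rw [if_neg hE, if_neg (fun h => hE h.symm), n9_mom_zero]

theorem n9_coeff {R : Type*} [CommRing R] (N : ℕ) (h : ℕ → ℕ → R[X]) (l E j : ℕ)
    (hj : (n9a N h l E).coeff j ≠ 0) :
    ∃ i, i ≤ N ∧ j ≤ N ∧ N + i - j = E ∧ (h i j).coeff l ≠ 0 := by
  rw [n9a, finsetSum_coeff] at hj
  obtain ⟨i, hi, h1⟩ := Finset.exists_ne_zero_of_sum_ne_zero hj
  rw [finsetSum_coeff] at h1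
  obtain ⟨j', hj', h2⟩ := Finset.exists_ne_zero_of_sum_ne_zero h1
  rw [Finset.mem_range] at hi hj'
  by_cases hE : N + i - j' = E
  · rw [if_pos hE, coeff_monomial] at h2
    by_cases hjj : j' = j
    · subst hjj
      rw [if_pos rfl] at h2
      exact ⟨i, by omega, by omega, hE, h2⟩
    · rw [if_neg hjj] at h2
      exact absurd rfl h2
  · rw [if_neg hE, coeff_zero] at h2
    exact absurd rfl h2

/-- If the `W`'s with smaller `n` vanish, every exponent `E` of `W N h l n` comes from a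
pair `(i,j)` with `i, j ≥ n`.
Proof. Let `a = ∑ i ≤ N, ∑ j ≤ N with N + i - j = E, monomial j ((h i j).coeff l) : R[X]`. Then
`mom n' a = (W N h l n').coeff E` for all `n'`. So `a ≠ 0`, `mom n' a = 0` for `n' < n`, and by
`mom_gap`: `natTrailingDegree a + n ≤ natDegree a`. Put `j2 = natDegree a`, `j1 = natTrailingDegree
a`: there are `i1, i2 ≤ N` with `N + i1 - j1 = E`, `N + i2 - j2 = E` and `(h i2 j2).coeff l ≠ 0`;
`j2 ≥ n`, `i2 = i1 + (j2 - j1) ≥ n`. -/
theorem W_span {R : Type*} [CommRing R] [IsDomain R] (N : ℕ) (h : ℕ → ℕ → R[X]) (l n : ℕ)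
    (hlow : ∀ n' < n, W N h l n' = 0) (E : ℕ) (hE : (W N h l n).coeff E ≠ 0) :
    ∃ i j, (h i j).coeff l ≠ 0 ∧ i ≤ N ∧ j ≤ N ∧ N + i - j = E ∧ n ≤ i ∧ n ≤ j := by
  have ha : n9a N h l E ≠ 0 := by
    intro h0
    apply hE
    rw [← n9_mom_a, h0, n9_mom_zero]
  have hgap := mom_gap n (n9a N h l E) ha (fun n' hn' => by
    rw [n9_mom_a, hlow n' hn', coeff_zero])
  obtain ⟨i2, hi2, hj2, hE2, h2⟩ := n9_coeff N h l E (n9a N h l E).natDegree (by
    rw [coeff_natDegree]
    exact leadingCoeff_ne_zero.2 ha)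
  obtain ⟨i1, hi1, hj1, hE1, h1⟩ := n9_coeff N h l E (n9a N h l E).natTrailingDegree 
    (trailingCoeff_nonzero_iff_nonzero.2 ha)
  exact ⟨i2, (n9a N h l E).natDegree, h2, hi2, hj2, hE2, by omega, by omega⟩

/-- Some `W` is nonzero: otherwise the polynomial `a` of N9a (for `l` with
`(h i0 j0).coeff l ≠ 0`, `E = N + i0 - j0`) is zero by `eq_zero_of_mom`. (For fixed `j` and `E` the
index `i` is determined: `i = E + j - N`.) -/
theorem W_ne {R : Type*} [CommRing R] [IsDomain R] (N : ℕ) (h : ℕ → ℕ → R[X])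
    (hN : ∀ i j, h i j ≠ 0 → i ≤ N ∧ j ≤ N) (hne : ∃ i j, h i j ≠ 0) :
    ∃ l n, W N h l n ≠ 0 := by
  by_contra hno
  push Not at hno
  obtain ⟨i0, j0, h0⟩ := hne
  obtain ⟨hi0, hj0⟩ := hN i0 j0 h0
  obtain ⟨l, hl⟩ : ∃ l, (h i0 j0).coeff l ≠ 0 := by
    by_contra hall
    push Not at hall
    exact h0 (Polynomial.ext fun l => by rw [hall l, coeff_zero])
  have ha : n9a N h l (N + i0 - j0) = 0 := eq_zero_of_mom _ fun n => by
    rw [n9_mom_a, hno, coeff_zero]
  apply hl
  have h1 := congrArg (fun P => coeff P j0) ha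
  simp only [coeff_zero] at h1
  rw [n9a, finsetSum_coeff, Finset.sum_eq_single i0, finsetSum_coeff,
    Finset.sum_eq_single j0, if_pos rfl, coeff_monomial, if_pos rfl] at h1
  · exact h1
  · intro j _ hj
    by_cases hE : N + i0 - j = N + i0 - j0
    · rw [if_pos hE, coeff_monomial, if_neg hj]
    · rw [if_neg hE, coeff_zero]
  · intro hj
    exact absurd (Finset.mem_range.2 (by omega)) hj
  · intro i _ hi
    rw [finsetSum_coeff]
    refine Finset.sum_eq_zero fun j hj => ?_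
    by_cases hE : N + i - j = N + i0 - j0
    · rw [if_pos hE, coeff_monomial]
      by_cases hjj : j = j0
      · subst hjj
        exfalso
        apply hi
        omega
      · rw [if_neg hjj]
    · rw [if_neg hE, coeff_zero]
  · intro hi
    exact absurd (Finset.mem_range.2 (by omega)) hi

end MP_cea741_ag.Nod
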