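import Mathlib
import Pool.Agent.Lib.MP_cea741_ag.Nod.N9
import Pool.Agent.Lib.MP_cea741_ag.Nod.N10

namespace MP_cea741_ag.Nod

open Polynomial MP_cea741_ag

/-- `W N h l n = 0` for `n > N`, since `choose j n = 0`. -/
theorem n11_W_zero {R : Type*} [CommRing R] (N : ℕ) (h : ℕ → ℕ → R[X]) (l n : ℕ) (hn : N < n) :
    W N h l n = 0 := by
  unfold W
  refine Finset.sum_eq_zero fun i _ => Finset.sum_eq_zero fun j hj => ?_
  have hj' : j < n := by
    have := Finset.mem_range.1 hj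
    omega
  rw [Nat.choose_eq_zero_of_lt hj']
  simp

/-- STEP B. Take `(l, n)` with `W N h l n ≠ 0` and `μ = l + n` minimal, and
`J n = if n ≤ μ then W N h (μ - n) n else 0`. `J n = 0` for `n > N` (`choose j n = 0`). For
`(J n).coeff E ≠ 0`: the `W N h (μ-n) n'` with `n' < n` vanish by minimality, so `W_span` gives
`(i,j)` with `h i j ≠ 0`, `N + i - j = E`, `i, j ≥ n`: so `E - N = i - j` and
`(E-N)(p+q) + 9 p n ≤ (i-j)(p+q) + 9 p j`, and the same for the other one. Divisibility: W_dvd. -/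
theorem stepB {R : Type*} [CommRing R] [IsDomain R] (r m d N M p q : ℕ) (h : ℕ → ℕ → R[X])
    (hN : ∀ i j, h i j ≠ 0 → i ≤ N ∧ j ≤ N) (hne : ∃ i j, h i j ≠ 0)
    (h2 : ∀ i j, h i j ≠ 0 → ((i : ℤ) - j) * (p + q) + 9 * p * j ≤ 3 * d * p)
    (h3 : ∀ i j, h i j ≠ 0 → ((j : ℤ) - i) * (p + q) + 9 * q * i ≤ 3 * d * q)
    (hc : OrdCond (X : R[X]) r m N M h) :
    ∃ J : ℕ → R[X], (∀ n, N < n → J n = 0) ∧ (∃ n, J n ≠ 0) ∧
      (∀ n E, (J n).coeff E ≠ 0 → ((E : ℤ) - N) * (p + q) + 9 * p * n ≤ 3 * d * p) ∧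
      (∀ n E, (J n).coeff E ≠ 0 → ((N : ℤ) - E) * (p + q) + 9 * q * n ≤ 3 * d * q) ∧
      ∀ b < m, (X - 1) ^ (r * (m - b)) ∣ ∑ n ∈ Finset.range (N + 1),
        ((n.choose b : ℕ) : R[X]) * X ^ (M * (n - b)) * J n := by
  classical
  have hex : ∃ μ : ℕ, ∃ l n, l + n = μ ∧ W N h l n ≠ 0 := by
    obtain ⟨l, n, hln⟩ := W_ne N h hN hne
    exact ⟨l + n, l, n, rfl, hln⟩
  obtain ⟨μ, hμ, hmin⟩ : ∃ μ : ℕ, (∃ l n, l + n = μ ∧ W N h l n ≠ 0) ∧
      ∀ l n, l + n < μ → W N h l n = 0 := by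
    refine ⟨Nat.find hex, Nat.find_spec hex, fun l n hlt => ?_⟩
    by_contra hne'
    exact Nat.find_min hex hlt ⟨l, n, rfl, hne'⟩
  have key : ∀ n E, (if n ≤ μ then W N h (μ - n) n else 0).coeff E ≠ 0 →
      ∃ i j, h i j ≠ 0 ∧ (E : ℤ) - N = (i : ℤ) - j ∧ n ≤ i ∧ n ≤ j := by
    intro n E hE
    by_cases hn : n ≤ μ
    · rw [if_pos hn] at hE
      obtain ⟨i, j, hij, _, hj, hEq, hni, hnj⟩ := W_span N h (μ - n) n
        (fun n' hn' => hmin _ _ (by omega)) E hE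
      refine ⟨i, j, fun h0 => hij (by rw [h0, coeff_zero]), ?_, hni, hnj⟩
      omega
    · rw [if_neg hn] at hE
      exact absurd (coeff_zero E) hE
  refine ⟨fun n => if n ≤ μ then W N h (μ - n) n else 0, ?_, ?_, ?_, ?_, ?_⟩
  · intro n hn
    show (if n ≤ μ then W N h (μ - n) n else 0) = 0
    split_ifs
    · exact n11_W_zero N h _ n hn
    · rfl
  · obtain ⟨l, n, hln, hW⟩ := hμ
    refine ⟨n, ?_⟩
    show (if n ≤ μ then W N h (μ - n) n else 0) ≠ 0
    rw [if_pos (by omega)]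
    have : μ - n = l := by omega
    rw [this]
    exact hW
  · intro n E hE
    obtain ⟨i, j, hij, hE', hni, hnj⟩ := key n E hE
    rw [hE']
    have h1 := h2 i j hij
    have h4 : 9 * (p : ℤ) * n ≤ 9 * p * j := by
      have : (n : ℤ) ≤ j := by exact_mod_cast hnj
      have hp : (0 : ℤ) ≤ 9 * p := by positivity
      exact mul_le_mul_of_nonneg_left this hp
    linarith
  · intro n E hE
    obtain ⟨i, j, hij, hE', hni, hnj⟩ := key n E hE
    have hE2 : (N : ℤ) - E = (j : ℤ) - i := by linarith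
    rw [hE2]
    have h1 := h3 i j hij
    have h4 : 9 * (q : ℤ) * n ≤ 9 * q * i := by
      have : (n : ℤ) ≤ i := by exact_mod_cast hni
      have hq : (0 : ℤ) ≤ 9 * q := by positivity
      exact mul_le_mul_of_nonneg_left this hq
    linarith
  · intro b hb
    exact W_dvd r m N M h hc μ b hb

end MP_cea741_ag.Nod
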