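import Mathlib
import Pool.Agent.Lib.MP_cea741_ag.Nod.N6

namespace MP_cea741_ag.Nod

open Polynomial MP_cea741_ag

/-- the polynomial `∑ choose n l * X^(M n) * J n`. -/
noncomputable def n12_P {R : Type*} [CommRing R] (N M : ℕ) (J : ℕ → R[X]) (l : ℕ) : R[X] :=
  ∑ n ∈ Finset.range (N + 1), ((n.choose l : ℕ) : R[X]) * X ^ (M * n) * J n

/-- the polynomial in the index `n` of the `E`-th coefficients. -/
noncomputable def n12_A {R : Type*} [CommRing R] (N M : ℕ) (J : ℕ → R[X]) (E : ℕ) : R[X] :=
  ∑ n ∈ Finset.range (N + 1), monomial n ((X ^ (M * n) * J n).coeff E)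

theorem n12_A_coeff {R : Type*} [CommRing R] (N M : ℕ) (J : ℕ → R[X]) (E i : ℕ) :
    (n12_A N M J E).coeff i = if i < N + 1 then (X ^ (M * i) * J i).coeff E else 0 := by
  unfold n12_A
  rw [finsetSum_coeff]
  simp only [coeff_monomial]
  rw [Finset.sum_ite_eq']
  simp only [Finset.mem_range]

theorem n12_mom {R : Type*} [CommRing R] (N M : ℕ) (J : ℕ → R[X]) (E l : ℕ) :
    mom l (n12_A N M J E) = (n12_P N M J l).coeff E := by
  have hdeg : (n12_A N M J E).natDegree < N + 1 := by
    have : (n12_A N M J E).natDegree ≤ N := by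
      rw [natDegree_le_iff_coeff_eq_zero]
      intro m hm
      rw [n12_A_coeff, if_neg (by omega)]
    omega
  unfold mom
  rw [sum_over_range' _ (fun n => by simp) (N + 1) hdeg]
  unfold n12_P
  rw [finsetSum_coeff]
  apply Finset.sum_congr rfl
  intro n hn
  rw [n12_A_coeff, if_pos (Finset.mem_range.1 hn), mul_assoc]
  have : (((n.choose l : ℕ) : R[X]) * (X ^ (M * n) * J n)) =
      C ((n.choose l : ℕ) : R) * (X ^ (M * n) * J n) := by
    rw [map_natCast]
  rw [this, coeff_C_mul]
  ring

theorem n12_factor {R : Type*} [CommRing R] (N M : ℕ) (J : ℕ → R[X]) (l : ℕ) :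
    n12_P N M J l = X ^ (M * l) * ∑ n ∈ Finset.range (N + 1),
        ((n.choose l : ℕ) : R[X]) * X ^ (M * (n - l)) * J n := by
  unfold n12_P
  rw [Finset.mul_sum]
  apply Finset.sum_congr rfl
  intro n _
  by_cases h : l ≤ n
  · have : M * n = M * l + M * (n - l) := by
      rw [← Nat.mul_add]; congr 1; omega
    rw [this, pow_add]
    ring
  · rw [Nat.choose_eq_zero_of_lt (by omega)]
    simp

/-- STEP C, algebra. `P_l = ∑ n ≤ N, choose n l * X^(M n) * J n`; `l` is the smallest
index with `P_l ≠ 0`. (If all `P_l = 0`, take the largest `n` with `J n ≠ 0`: `P_n = X^(M n) J n`.)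
For `P_l.coeff E ≠ 0` put `a = ∑ n ≤ N with M n ≤ E, monomial n ((J n).coeff (E - M n))`: then
`mom l' a = (P_l').coeff E`, so `mom_gap` gives `natTrailingDegree a + l ≤ natDegree a`. The
divisibility for `l < m`: `P_l = X^(M l) * ∑ n, choose n l * X^(M (n-l)) * J n`, then
`gap_of_dvd`. -/
theorem firstN {R : Type*} [CommRing R] [IsDomain R] (r m N M : ℕ) (J : ℕ → R[X])
    (hJN : ∀ n, N < n → J n = 0) (hJ : ∃ n, J n ≠ 0)
    (hdvd : ∀ b < m, (X - 1) ^ (r * (m - b)) ∣ ∑ n ∈ Finset.range (N + 1),
        ((n.choose b : ℕ) : R[X]) * X ^ (M * (n - b)) * J n) :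
    ∃ l : ℕ, ∃ P : R[X], P ≠ 0 ∧
      (∀ E, P.coeff E ≠ 0 → ∃ n1 n2 : ℕ, n1 + l ≤ n2 ∧ M * n1 ≤ E ∧ M * n2 ≤ E ∧
        (J n1).coeff (E - M * n1) ≠ 0 ∧ (J n2).coeff (E - M * n2) ≠ 0) ∧
      (l < m → P.natTrailingDegree + r * (m - l) ≤ P.natDegree) := by
  classical
  have hex : ∃ l, n12_P N M J l ≠ 0 := by
    by_contra hcon
    push Not at hcon
    have hall : ∀ k, ∀ n, N < n + k → J n = 0 := by
      intro k
      induction k with
      | zero => intro n hn; exact hJN n hn
      | succ k ih =>
        intro n hn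
        by_cases h : N < n + k
        · exact ih n h
        · have hn' : n + k = N := by omega
          have h1 := hcon n
          unfold n12_P at h1
          rw [Finset.sum_eq_single n] at h1
          · rw [Nat.choose_self, Nat.cast_one, one_mul] at h1
            rcases mul_eq_zero.1 h1 with h2 | h2
            · exact absurd h2 (pow_ne_zero _ X_ne_zero)
            · exact h2
          · intro b hb hbn
            by_cases hlt : b < n
            · rw [Nat.choose_eq_zero_of_lt hlt]; simp
            · rw [ih b (by omega)]; simp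
          · intro hnot
            exfalso
            apply hnot
            rw [Finset.mem_range]; omega
    obtain ⟨n, hn⟩ := hJ
    exact hn (hall (N + 1) n (by omega))
  set l := Nat.find hex with hl
  have hPl : n12_P N M J l ≠ 0 := Nat.find_spec hex
  have hmin : ∀ b < l, n12_P N M J b = 0 := by
    intro b hb
    have := Nat.find_min hex hb
    push Not at this
    exact this
  refine ⟨l, n12_P N M J l, hPl, ?_, ?_⟩
  · intro E hE
    have hA : n12_A N M J E ≠ 0 := by
      intro h0
      apply hE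
      rw [← n12_mom, h0]
      unfold mom
      simp
    have hgap := mom_gap l (n12_A N M J E) hA (by
      intro n hn
      rw [n12_mom, hmin n hn, coeff_zero])
    have key : ∀ i, (n12_A N M J E).coeff i ≠ 0 → M * i ≤ E ∧ (J i).coeff (E - M * i) ≠ 0 := by
      intro i hi
      rw [n12_A_coeff] at hi
      split_ifs at hi with h1
      · rw [coeff_X_pow_mul'] at hi
        split_ifs at hi with h2
        · exact ⟨h2, hi⟩
        · exact absurd rfl hi
      · exact absurd rfl hi
    have k1 := key (n12_A N M J E).natTrailingDegree (by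
      have : (n12_A N M J E).trailingCoeff ≠ 0 := trailingCoeff_nonzero_iff_nonzero.2 hA
      exact this)
    have k2 := key (n12_A N M J E).natDegree (by
      have : (n12_A N M J E).leadingCoeff ≠ 0 := leadingCoeff_ne_zero.2 hA
      exact this)
    exact ⟨_, _, hgap, k1.1, k2.1, k1.2, k2.2⟩
  · intro hlm
    apply gap_of_dvd _ _ hPl
    rw [n12_factor]
    exact Dvd.dvd.mul_left (hdvd l hlm) _

end MP_cea741_ag.Nod
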