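import Mathlib
import Pool.Agent.Lib.MP_cea741_ag.Nod.N12

namespace MP_cea741_ag.Nod

open Polynomial MP_cea741_ag

/-- STEP C, numbers. `S = p+q`, `T = M S + 9 q`. `E1` is the smallest, `E2` the largest
exponent (shifted by `N`), `a2` is `n2` for `E1`; `(b1, b2)` are `(n1, n2)` for `E2`.
From `T l ≤ T a2 ≤ 3 d q + E1 S` and `E2 S ≤ 3 d p + (T - 9 S) b1`, `T (b1 + l) ≤ T b2 ≤ 3 d q + E2 S`
one gets `9 S^2 (E2 - E1) ≤ T (3 d S - T l)`. As `E2 ≥ E1`: `T l ≤ 3 d S < T m`, so `l < m`, and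
`r (m - l) ≤ E2 - E1` contradicts `hn1`, `hn2` (the function
`9 S^2 r (m - x) - T (3 d S - T x)` is linear, positive at `x = 0` and at `x = 3 d S / T`). -/
theorem numeric (r m d M p q l : ℤ) (hr : 0 ≤ r) (hd : 0 ≤ d) (hq : 1 ≤ q) (hp : 8 * q ≤ p)
    (hl : 0 ≤ l) (hM : 9 ≤ M)
    (hn1 : d * (M * (p + q) + 9 * q) < 3 * (p + q) * (r * m))
    (hn2 : 3 * d * (p + q) < (M * (p + q) + 9 * q) * m)
    (E1 E2 a2 b1 b2 : ℤ) (hE : E1 ≤ E2) (ha : l ≤ a2) (hb : b1 + l ≤ b2)
    (k1 : -(E1 - M * a2) * (p + q) + 9 * q * a2 ≤ 3 * d * q)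
    (k2 : (E2 - M * b1) * (p + q) + 9 * p * b1 ≤ 3 * d * p)
    (k3 : -(E2 - M * b2) * (p + q) + 9 * q * b2 ≤ 3 * d * q)
    (hw : l < m → r * (m - l) ≤ E2 - E1) : False := by
  obtain ⟨S, hS⟩ : ∃ S, S = p + q := ⟨_, rfl⟩
  obtain ⟨T, hT⟩ : ∃ T, T = M * S + 9 * q := ⟨_, rfl⟩
  have hp' : p = S - q := by omega
  have hS9 : 9 * q ≤ S := by omega
  have hS0 : 0 < S := by omega
  have hTS : 9 * S + 9 * q ≤ T := by rw [hT]; nlinarith
  have hT0 : 0 < T := by omega
  rw [← hS] at hn1 hn2 k1 k2 k3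
  rw [← hT] at hn1 hn2
  have k1' : T * a2 ≤ 3 * d * q + E1 * S := by rw [hT]; nlinarith
  have k3' : T * b2 ≤ 3 * d * q + E2 * S := by rw [hT]; nlinarith
  have k2' : E2 * S ≤ 3 * d * (S - q) + (T - 9 * S) * b1 := by
    have h1 := k2
    rw [hp'] at h1
    rw [hT]; linarith
  have c1 : T * l ≤ 3 * d * q + E1 * S := le_trans (mul_le_mul_of_nonneg_left ha hT0.le) k1'
  have c3 : T * (b1 + l) ≤ 3 * d * q + E2 * S := le_trans (mul_le_mul_of_nonneg_left hb hT0.le) k3'
  have c4 : 9 * S * (T * l) ≤ 9 * S * (3 * d * q + E1 * S) :=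
    mul_le_mul_of_nonneg_left c1 (by omega)
  have c5 : (T - 9 * S) * (T * (b1 + l)) ≤ (T - 9 * S) * (3 * d * q + E2 * S) :=
    mul_le_mul_of_nonneg_left c3 (by omega)
  have c6 : T * (E2 * S) ≤ T * (3 * d * (S - q) + (T - 9 * S) * b1) :=
    mul_le_mul_of_nonneg_left k2' hT0.le
  have key : 9 * S ^ 2 * (E2 - E1) ≤ T * (3 * d * S - T * l) := by linarith
  have h0 : 0 ≤ T * (3 * d * S - T * l) := le_trans (by
    apply mul_nonneg (by positivity); omega) key
  have hTl : T * l ≤ 3 * d * S := by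
    have := nonneg_of_mul_nonneg_right h0 hT0
    linarith
  have hlm : l < m := by
    have h1 : T * l < T * m := by linarith
    exact lt_of_mul_lt_mul_left h1 hT0.le
  have hw' := hw hlm
  have hw2 : 9 * S ^ 2 * (r * (m - l)) ≤ T * (3 * d * S - T * l) :=
    le_trans (mul_le_mul_of_nonneg_left hw' (by positivity)) key
  have hm : 0 < m := by omega
  have hr0 : 0 < r := by
    rcases hr.lt_or_eq with h | h
    · exact h
    · rw [← h] at hn1
      have : 0 ≤ d * T := mul_nonneg hd hT0.le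
      simp at hn1
      linarith
  have f0 : 0 < 3 * S * (3 * S * (r * m) - d * T) := by
    apply mul_pos (by omega); linarith
  have f1 : 0 < 9 * S ^ 2 * r * (T * m - 3 * d * S) := by
    apply mul_pos (by positivity); linarith
  rcases hd.lt_or_eq with hd0 | hd0
  · have e1 : (9 * S ^ 2 * (r * (m - l)) - T * (3 * d * S - T * l)) * (3 * d * S) =
        3 * S * (3 * S * (r * m) - d * T) * (3 * d * S - T * l) +
          9 * S ^ 2 * r * (T * m - 3 * d * S) * l := by ring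
    have e2 : (9 * S ^ 2 * (r * (m - l)) - T * (3 * d * S - T * l)) * (3 * d * S) ≤ 0 := by
      apply mul_nonpos_of_nonpos_of_nonneg
      · linarith
      · positivity
    rw [e1] at e2
    have e3 : 0 ≤ 3 * S * (3 * S * (r * m) - d * T) * (3 * d * S - T * l) :=
      mul_nonneg f0.le (by linarith)
    have e4 : 0 ≤ 9 * S ^ 2 * r * (T * m - 3 * d * S) * l := mul_nonneg f1.le hl
    have e5 : 9 * S ^ 2 * r * (T * m - 3 * d * S) * l = 0 := by linarith
    have e6 : 3 * S * (3 * S * (r * m) - d * T) * (3 * d * S - T * l) = 0 := by linarith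
    have e7 : l = 0 := by
      rcases mul_eq_zero.1 e5 with h | h
      · exact absurd h f1.ne'
      · exact h
    rw [e7, mul_zero, sub_zero] at e6
    have : 0 < 3 * S * (3 * S * (r * m) - d * T) * (3 * d * S) := mul_pos f0 (by positivity)
    linarith
  · rw [← hd0] at hTl
    have hl0 : l = 0 := by
      have : T * l ≤ 0 := by simpa using hTl
      have := nonpos_of_mul_nonpos_right this hT0
      omega
    rw [hl0, ← hd0] at hw2
    have : 0 < 9 * S ^ 2 * (r * m) := by positivity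
    simp at hw2
    linarith

/-- STEP C. Combine `firstN` (with `E1 = natTrailingDegree P - N`, `E2 = natDegree P - N`)
and `numeric`. -/
theorem stepC {R : Type*} [CommRing R] [IsDomain R] (r m d N M p q : ℕ) (hq : 1 ≤ q)
    (hp : 8 * q ≤ p) (hM : 9 ≤ M)
    (hn1 : d * (M * (p + q) + 9 * q) < 3 * (p + q) * (r * m))
    (hn2 : 3 * d * (p + q) < (M * (p + q) + 9 * q) * m)
    (J : ℕ → R[X]) (hJN : ∀ n, N < n → J n = 0) (hJ : ∃ n, J n ≠ 0)
    (ha : ∀ n E, (J n).coeff E ≠ 0 → ((E : ℤ) - N) * (p + q) + 9 * p * n ≤ 3 * d * p)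
    (hb : ∀ n E, (J n).coeff E ≠ 0 → ((N : ℤ) - E) * (p + q) + 9 * q * n ≤ 3 * d * q)
    (hdvd : ∀ b < m, (X - 1) ^ (r * (m - b)) ∣ ∑ n ∈ Finset.range (N + 1),
        ((n.choose b : ℕ) : R[X]) * X ^ (M * (n - b)) * J n) : False := by
  obtain ⟨l, P, hP0, hco, hdeg⟩ := firstN r m N M J hJN hJ hdvd
  have hT0 : P.coeff P.natTrailingDegree ≠ 0 := coeff_natTrailingDegree_ne_zero.2 hP0
  have hD0 : P.coeff P.natDegree ≠ 0 := by
    rw [coeff_natDegree]; exact leadingCoeff_ne_zero.2 hP0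
  have hTD := natTrailingDegree_le_natDegree P
  obtain ⟨a1, a2, u1, _, u3, _, u5⟩ := hco _ hT0
  obtain ⟨b1, b2, v1, v2, v3, v4, v5⟩ := hco _ hD0
  have w1 := hb _ _ u5
  have w2 := ha _ _ v4
  have w3 := hb _ _ v5
  rw [Nat.cast_sub u3] at w1
  rw [Nat.cast_sub v2] at w2
  rw [Nat.cast_sub v3] at w3
  push_cast at w1 w2 w3
  refine numeric r m d M p q l (by positivity) (by positivity) (by exact_mod_cast hq)
    (by exact_mod_cast hp) (by positivity) (by exact_mod_cast hM) (by exact_mod_cast hn1)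
    (by exact_mod_cast hn2) ((P.natTrailingDegree : ℤ) - N) ((P.natDegree : ℤ) - N) a2 b1 b2
    (by omega) (by omega) (by omega) ?_ ?_ ?_ ?_
  · linarith
  · linarith
  · linarith
  · intro hlm
    have hlm' : l < m := by exact_mod_cast hlm
    have h1 := hdeg hlm'
    have h2 : ((P.natTrailingDegree + r * (m - l) : ℕ) : ℤ) ≤ (P.natDegree : ℤ) := by
      exact_mod_cast h1
    push_cast [Nat.cast_sub hlm'.le] at h2
    linarith

end MP_cea741_ag.Nod
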