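import Mathlib

namespace MP_cea741_ag.Nod

/-- Choice of the parameters. Choose a rational `D = u/v` with
`max 3 (d/m) < D < √r` (exists_rat_btwn; `d/m < √r` because `d^2 < m^2 r`). Then `d v < m u` and
`d u < r m v` (because `d D < m √r √r`; for `d = 0` use `r m v > 0`), `3 v < u`. Put
`M = (3 u - 1) / v` (natural division), `q = 3 u - M v` (so `1 ≤ q ≤ v`), `p = 9 v - q`. Then
`p + q = 9 v`, `M (p+q) + 9 q = 27 u`, `M ≥ 9` because `3 u - 1 ≥ 9 v`. -/
theorem params (r m d : ℕ) (hr : 9 < r) (hm : 1 ≤ m) (hd : d ^ 2 < m ^ 2 * r) :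
    ∃ M p q : ℕ, 1 ≤ q ∧ 8 * q ≤ p ∧ 9 ≤ M ∧
      d * (M * (p + q) + 9 * q) < 3 * (p + q) * (r * m) ∧
      3 * d * (p + q) < (M * (p + q) + 9 * q) * m := by
  have hm0 : (0 : ℝ) < m := by exact_mod_cast hm
  have hr0 : (0 : ℝ) ≤ r := Nat.cast_nonneg r
  have hsq : √(r : ℝ) * √(r : ℝ) = r := Real.mul_self_sqrt hr0
  have h3 : (3 : ℝ) < √(r : ℝ) := by
    apply Real.lt_sqrt_of_sq_lt
    have : (9 : ℝ) < r := by exact_mod_cast hr
    linarith
  have hdm : (d : ℝ) < m * √(r : ℝ) := by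
    have h1 : (d : ℝ) < √((m : ℝ) ^ 2 * r) := by
      apply Real.lt_sqrt_of_sq_lt
      exact_mod_cast hd
    rwa [Real.sqrt_mul (by positivity), Real.sqrt_sq hm0.le] at h1
  have hmax : max 3 ((d : ℝ) / m) < √(r : ℝ) := by
    apply max_lt h3
    rw [div_lt_iff₀ hm0]
    linarith
  obtain ⟨D, hD1, hD2⟩ := exists_rat_btwn hmax
  have hD3 : (3 : ℝ) < D := lt_of_le_of_lt (le_max_left _ _) hD1
  have hDd : (d : ℝ) / m < D := lt_of_le_of_lt (le_max_right _ _) hD1
  have hD0 : 0 < D := by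
    have : (0 : ℝ) < D := by linarith
    exact_mod_cast this
  obtain ⟨u, hu⟩ : ∃ u : ℕ, D.num = u := ⟨D.num.toNat, (Int.toNat_of_nonneg
    (Rat.num_pos.2 hD0).le).symm⟩
  set v : ℕ := D.den with hv
  have hv0 : 0 < v := D.den_pos
  have hvr : (0 : ℝ) < v := by exact_mod_cast hv0
  have hDuv : (D : ℝ) * v = u := by
    have h1 : (D : ℚ) * D.den = D.num := Rat.mul_den_eq_num D
    rw [hu] at h1
    exact_mod_cast h1
  have a1 : 3 * v < u := by
    have : (3 : ℝ) * v < u := by rw [← hDuv]; exact mul_lt_mul_of_pos_right hD3 hvr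
    exact_mod_cast this
  have a2 : d * v < u * m := by
    have h1 : (d : ℝ) < D * m := by rwa [div_lt_iff₀ hm0] at hDd
    have : (d : ℝ) * v < u * m := by
      rw [← hDuv]
      nlinarith
    exact_mod_cast this
  have a3 : d * u < v * (r * m) := by
    have h1 : (d : ℝ) * D ≤ d * √(r : ℝ) := mul_le_mul_of_nonneg_left hD2.le (Nat.cast_nonneg d)
    have h2 : (d : ℝ) * √(r : ℝ) < m * √(r : ℝ) * √(r : ℝ) :=
      mul_lt_mul_of_pos_right hdm (by linarith)
    have h4 : (d : ℝ) * D < r * m := by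
      rw [mul_assoc, hsq] at h2
      linarith
    have : (d : ℝ) * u < v * (r * m) := by
      rw [← hDuv]
      nlinarith
    exact_mod_cast this
  obtain ⟨M, q, hq1, hq2, hMq⟩ : ∃ M q : ℕ, 1 ≤ q ∧ q ≤ v ∧ M * v + q = 3 * u := by
    refine ⟨(3 * u - 1) / v, (3 * u - 1) % v + 1, by omega, ?_, ?_⟩
    · have := Nat.mod_lt (3 * u - 1) hv0
      omega
    · have h1 := Nat.div_add_mod (3 * u - 1) v
      rw [mul_comm] at h1
      omega
  have hM : 9 ≤ M := by
    by_contra hcon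
    push Not at hcon
    have h1 : M * v ≤ 8 * v := Nat.mul_le_mul_right v (by omega)
    omega
  refine ⟨M, 9 * v - q, q, hq1, by omega, hM, ?_, ?_⟩
  · have e1 : 9 * v - q + q = 9 * v := by omega
    have e2 : M * (9 * v) + 9 * q = 27 * u := by
      have : 9 * (M * v + q) = 9 * (3 * u) := by rw [hMq]
      linarith
    rw [e1, e2]
    linarith
  · have e1 : 9 * v - q + q = 9 * v := by omega
    have e2 : M * (9 * v) + 9 * q = 27 * u := by
      have : 9 * (M * v + q) = 9 * (3 * u) := by rw [hMq]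
      linarith
    rw [e1, e2]
    linarith

end MP_cea741_ag.Nod
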