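import Mathlib

namespace MP_cea741_ag.Nod

/-- Expansion of a germ in powers of another parameter. Induction on `r`: if
`X^r ∣ y0 - ∑ i : Fin r, C (c i) * x^i` then the coefficient of `X^r` is `γ`, and
`c_r = γ / (coeff 1 x)^r` (`x^r = X^r * λ^r`, `constantCoeff λ = coeff 1 x`); use Fin.snoc or
functions ℕ → K with sums over range r. -/
theorem exists_germ {K : Type*} [Field K] (x y0 : PowerSeries K)
    (h0 : PowerSeries.constantCoeff x = 0) (h1 : PowerSeries.coeff 1 x ≠ 0) (r : ℕ) :
    ∃ c : Fin r → K, (PowerSeries.X : PowerSeries K) ^ r ∣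
      y0 - ∑ i : Fin r, PowerSeries.C (c i) * x ^ (i : ℕ) := by
  obtain ⟨l, hl⟩ : (PowerSeries.X : PowerSeries K) ∣ x := PowerSeries.X_dvd_iff.2 h0
  have hl0 : PowerSeries.constantCoeff l = PowerSeries.coeff 1 x := by
    rw [hl, show (1 : ℕ) = 0 + 1 from rfl, PowerSeries.coeff_succ_X_mul,
      PowerSeries.coeff_zero_eq_constantCoeff_apply]
  induction r with
  | zero => exact ⟨Fin.elim0, by simp⟩
  | succ r ih =>
    obtain ⟨c, q, hq⟩ := ih
    refine ⟨Fin.snoc c (PowerSeries.constantCoeff q / (PowerSeries.coeff 1 x) ^ r), ?_⟩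
    rw [Fin.sum_univ_castSucc]
    simp only [Fin.snoc_castSucc, Fin.snoc_last, Fin.val_castSucc, Fin.val_last]
    have key : y0 - (∑ i : Fin r, PowerSeries.C (c i) * x ^ (i : ℕ) +
        PowerSeries.C (PowerSeries.constantCoeff q / (PowerSeries.coeff 1 x) ^ r) * x ^ r) =
        PowerSeries.X ^ r * (q - PowerSeries.C
          (PowerSeries.constantCoeff q / (PowerSeries.coeff 1 x) ^ r) * l ^ r) := by
      have hx : x ^ r = PowerSeries.X ^ r * l ^ r := by
        conv_lhs => rw [hl, mul_pow]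
      rw [mul_sub, ← hq, hx]
      ring
    rw [key, pow_succ]
    refine mul_dvd_mul_left _ (PowerSeries.X_dvd_iff.2 ?_)
    rw [map_sub, map_mul, map_pow, hl0, PowerSeries.constantCoeff_C,
      div_mul_cancel₀ _ (pow_ne_zero _ h1), sub_self]

end MP_cea741_ag.Nod
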