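import Mathlib
import Pool.Agent.Lib.MP_cea741_ag.ArcA
import Pool.Agent.Lib.MP_cea741_ag.Nod.Defs

namespace MP_cea741_ag.Nod

open Polynomial MP_cea741_ag

/-- `F(x, y0 + g1 Z)` as a polynomial in `Z` over `K⟦X⟧`. -/
noncomputable def ev {A K : Type*} [CommRing A] [CommRing K] (φ : A →+* K)
    (x y0 g1 : PowerSeries K) : MvPolynomial (Fin 2) A →+* (PowerSeries K)[X] :=
  MvPolynomial.eval₂Hom (((C : PowerSeries K →+* (PowerSeries K)[X]).comp
    (PowerSeries.C : K →+* PowerSeries K)).comp φ) ![C x, C y0 + C g1 * X]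

/-- Let `Φ : K[X][X] →+* (PowerSeries K)[X]` be evaluation of the inner variable at `x`
(as constant `C x`, coefficients `C (PowerSeries.C a)`) and of the outer variable at
`C (y0 - g(x)) + C g1 * X`, `g = gpol r c`. Then `Φ (Sm.eta (gpol r c) P) = ev P` (both are ring
homomorphisms in `P`; check on `C a`, `X 0`, `X 1`; `Sm.eta g : X 0 ↦ C X, X 1 ↦ X + C g`), and `Φ`
maps `X` and `C (X^r)` into `span {X, C (X^r)}` of `(PowerSeries K)[X]` (`X^r ∣ x^r`,
`X^r ∣ y0 - g(x)`). So `ev P` lies in `span {X, C (X^r)} ^ m` (Ideal.map_pow, Ideal.pow_right_mono)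
and `mon_coeff` (MonA.lean) applies with `b = X^r`; `(X^r)^(m-b) = X^(r*(m-b))`. -/
theorem transport {K : Type*} [Field K] (r m : ℕ) (c : Fin r → K) (x y0 g1 : PowerSeries K)
    (hx : (PowerSeries.X : PowerSeries K) ∣ x)
    (hc : (PowerSeries.X : PowerSeries K) ^ r ∣
      y0 - ∑ i : Fin r, PowerSeries.C (c i) * x ^ (i : ℕ))
    (P : MvPolynomial (Fin 2) K)
    (hP : Sm.eta (gpol r c) P ∈ (Ideal.span {X, C (X ^ r)} : Ideal K[X][X]) ^ m) (b : ℕ) :
    (PowerSeries.X : PowerSeries K) ^ (r * (m - b)) ∣ (ev (RingHom.id K) x y0 g1 P).coeff b := by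
  set e : K[X] →+* PowerSeries K := eval₂RingHom PowerSeries.C x with he
  have heg : e (gpol r c) = ∑ i : Fin r, PowerSeries.C (c i) * x ^ (i : ℕ) := by
    simp [he, gpol]
  set Φ : K[X][X] →+* (PowerSeries K)[X] :=
    eval₂RingHom ((C : PowerSeries K →+* (PowerSeries K)[X]).comp e)
      (C (y0 - e (gpol r c)) + C g1 * X) with hΦ
  have h1 : Φ (Sm.eta (gpol r c) P) = ev (RingHom.id K) x y0 g1 P := by
    have : Φ.comp (Sm.eta (gpol r c)) = ev (RingHom.id K) x y0 g1 := by
      apply MvPolynomial.ringHom_ext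
      · intro a
        simp [hΦ, Sm.eta, ev, he]
      · intro i
        fin_cases i
        · simp [hΦ, Sm.eta, ev, he]
        · simp [hΦ, Sm.eta, ev]
          ring
    exact congrArg (fun f => f P) this
  have h2 := Ideal.mem_map_of_mem Φ hP
  rw [h1, Ideal.map_pow] at h2
  have h3 : Ideal.map Φ (Ideal.span {X, C (X ^ r)} : Ideal K[X][X]) ≤
      (Ideal.span {X, C (PowerSeries.X ^ r)} : Ideal (PowerSeries K)[X]) := by
    rw [Ideal.map_span, Ideal.span_le, Set.image_pair]
    intro u hu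
    rcases hu with rfl | rfl
    · have e1 : Φ X = C (y0 - e (gpol r c)) + C g1 * X := by simp [hΦ]
      rw [SetLike.mem_coe, e1]
      refine Ideal.add_mem _ ?_ (Ideal.mul_mem_left _ _ (Ideal.subset_span (by simp)))
      rw [heg]
      obtain ⟨q, hq⟩ := hc
      rw [hq, C_mul]
      exact Ideal.mul_mem_right _ _ (Ideal.subset_span (by simp))
    · have e2 : Φ (C (X ^ r)) = C (x ^ r) := by
        rw [hΦ, coe_eval₂RingHom, eval₂_C, RingHom.comp_apply, he, coe_eval₂RingHom, eval₂_pow,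
          eval₂_X]
      rw [SetLike.mem_coe, e2]
      obtain ⟨q, hq⟩ := pow_dvd_pow_of_dvd hx r
      rw [hq, C_mul]
      exact Ideal.mul_mem_right _ _ (Ideal.subset_span (by simp))
  have h4 := Ideal.pow_right_mono h3 m h2
  have h5 := mon_coeff _ m _ h4 b
  rwa [← pow_mul] at h5

end MP_cea741_ag.Nod
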