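import Mathlib
import Pool.Agent.Lib.MP_cea741_ag.Nod.N16

namespace MP_cea741_ag.Nod

open Polynomial MP_cea741_ag

private theorem n17_coeff_pow {K : Type*} [CommRing K] (E n : ℕ) :
    PowerSeries.coeff n ((1 + PowerSeries.X : PowerSeries K) ^ E) = (E.choose n : K) := by
  have h : ((1 + PowerSeries.X : PowerSeries K) ^ E) = (((1 + X : K[X]) ^ E : K[X]) : PowerSeries K) := by
    simp
  rw [h, Polynomial.coeff_coe, Polynomial.coeff_one_add_X_pow]

/-- The coefficient of `ξ^n` in `(1+ξ)^E * choose j b * (1 + s (1+ξ)^M)^(j-b)`. -/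
theorem kern_eq {K : Type*} [CommRing K] (s : K) (N M i j b n : ℕ) (hj : j ≤ N) :
    PowerSeries.coeff n (((1 + PowerSeries.X : PowerSeries K)) ^ (N + i - j) *
      ((j.choose b : ℕ) : PowerSeries K) *
        (1 + PowerSeries.C s * (1 + PowerSeries.X) ^ M) ^ (j - b)) = kern s N M i j b n := by
  rcases lt_or_ge j b with hb | hb
  · rw [Nat.choose_eq_zero_of_lt hb, Nat.cast_zero, mul_zero, zero_mul, map_zero, kern]
    symm
    refine Finset.sum_eq_zero fun l _ => ?_
    rcases lt_or_ge j l with hl | hl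
    · rw [Nat.choose_eq_zero_of_lt hl, zero_mul, zero_mul, Nat.cast_zero, zero_mul]
    · rw [Nat.choose_eq_zero_of_lt (lt_of_le_of_lt hl hb), mul_zero, zero_mul, Nat.cast_zero,
        zero_mul]
  · have h1 : kern s N M i j b n = ∑ k ∈ Finset.range (j - b + 1),
        ((j.choose b * (j - b).choose k * (N + i - j + M * k).choose n : ℕ) : K) * s ^ k := by
      rw [kern]
      have h2 : Finset.Ico b (j + 1) ⊆ Finset.range (N + 1) := by
        intro l hl
        rw [Finset.mem_Ico] at hl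
        rw [Finset.mem_range]
        omega
      rw [← Finset.sum_subset h2, Finset.sum_Ico_eq_sum_range]
      · have h3 : j + 1 - b = j - b + 1 := by omega
        rw [h3]
        refine Finset.sum_congr rfl fun k hk => ?_
        rw [Finset.mem_range] at hk
        have h4 : j.choose (b + k) * (b + k).choose b = j.choose b * (j - b).choose k := by
          have := Nat.choose_mul (n := j) (k := b + k) (s := b) (Nat.le_add_right b k)
          rw [this, Nat.add_sub_cancel_left]
        rw [h4, Nat.add_sub_cancel_left]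
      · intro l _ hl
        rw [Finset.mem_Ico, not_and_or] at hl
        rcases hl with hl | hl
        · rw [Nat.choose_eq_zero_of_lt (n := l) (k := b) (by omega), mul_zero, zero_mul,
            Nat.cast_zero, zero_mul]
        · rw [Nat.choose_eq_zero_of_lt (n := j) (k := l) (by omega), zero_mul, zero_mul,
            Nat.cast_zero, zero_mul]
    rw [h1, add_comm (1 : PowerSeries K) (PowerSeries.C s * _),
      add_pow (PowerSeries.C s * (1 + PowerSeries.X) ^ M) 1 (j - b), Finset.mul_sum, map_sum]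
    refine Finset.sum_congr rfl fun k _ => ?_
    have h5 : (1 + PowerSeries.X : PowerSeries K) ^ (N + i - j) * ((j.choose b : ℕ) : PowerSeries K) *
        ((PowerSeries.C s * (1 + PowerSeries.X) ^ M) ^ k * 1 ^ (j - b - k) *
          (((j - b).choose k : ℕ) : PowerSeries K)) =
        PowerSeries.C (((j.choose b * (j - b).choose k : ℕ) : K) * s ^ k) *
          (1 + PowerSeries.X) ^ (N + i - j + M * k) := by
      rw [one_pow, mul_one, mul_pow, ← pow_mul, pow_add, map_mul, map_natCast, map_pow]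
      push_cast
      ring
    rw [h5, PowerSeries.coeff_C_mul, n17_coeff_pow]
    push_cast
    ring

/-- `F(T^2 - T, T^3 - T^2 + ζ (Y0 + Z))` for `T = τ^q (1+ξ)`, `ζ = τ^p U`, `U (1+ξ) = 1`,
`Y0 = 1 + σ (1+ξ)^M`. -/
theorem expand {A K : Type*} [CommRing A] [CommRing K] (φ : A →+* K) (τ σ : A) (p q N M : ℕ)
    (U : PowerSeries K) (hU : U * (1 + PowerSeries.X) = 1) (F : MvPolynomial (Fin 2) A)
    (hN : ∀ i j, sc F i j ≠ 0 → i ≤ N ∧ j ≤ N) (T ζ Y0 : PowerSeries K)
    (hT : T = PowerSeries.C (φ τ ^ q) * (1 + PowerSeries.X))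
    (hζ : ζ = PowerSeries.C (φ τ ^ p) * U)
    (hY : Y0 = 1 + PowerSeries.C (φ σ) * (1 + PowerSeries.X) ^ M) (b n : ℕ) :
    PowerSeries.coeff n ((1 + PowerSeries.X) ^ N *
      (ev φ (T ^ 2 - T) (T ^ 3 - T ^ 2 + ζ * Y0) ζ F).coeff b) =
      φ (∑ i ∈ Finset.range (N + 1), ∑ j ∈ Finset.range (N + 1),
        (sc F i j * τ ^ (q * i + p * j)) * kern σ N M i j b n) := by
  set ι : A →+* (PowerSeries K)[X] := ((C : PowerSeries K →+* (PowerSeries K)[X]).comp
    (PowerSeries.C : K →+* PowerSeries K)).comp φ with hι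
  set inn : A[X] →+* (PowerSeries K)[X] := eval₂RingHom ι (C T) with hinn
  set Ψ : A[X][X] →+* (PowerSeries K)[X] := eval₂RingHom inn (C ζ * (X + C Y0)) with hΨ
  have hΨC : ∀ a, Ψ (C a) = inn a := fun a => by rw [hΨ, coe_eval₂RingHom, eval₂_C]
  have hΨX : Ψ X = C ζ * (X + C Y0) := by rw [hΨ, coe_eval₂RingHom, eval₂_X]
  have hinnC : ∀ a, inn (C a) = ι a := fun a => by rw [hinn, coe_eval₂RingHom, eval₂_C]
  have hinnX : inn X = C T := by rw [hinn, coe_eval₂RingHom, eval₂_X]
  have hev : ev φ (T ^ 2 - T) (T ^ 3 - T ^ 2 + ζ * Y0) ζ = Ψ.comp star := by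
    apply MvPolynomial.ringHom_ext
    · intro a
      rw [RingHom.comp_apply, ev, star, MvPolynomial.eval₂Hom_C, MvPolynomial.eval₂Hom_C,
        RingHom.comp_apply C C, hΨC, hinnC]
    · intro i
      rw [RingHom.comp_apply, ev, star, MvPolynomial.eval₂Hom_X', MvPolynomial.eval₂Hom_X']
      fin_cases i
      · show C (T ^ 2 - T) = Ψ (C (X ^ 2 - X))
        rw [hΨC, map_sub inn, map_pow inn, hinnX, C_sub, C_pow]
      · show C (T ^ 3 - T ^ 2 + ζ * Y0) + C ζ * X = Ψ (X + C (X ^ 3 - X ^ 2))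
        rw [map_add Ψ, hΨX, hΨC, map_sub inn, map_pow inn, map_pow inn, hinnX, C_add, C_sub, C_pow,
          C_pow, C_mul]
        ring
  have hdeg : (star F).natDegree < N + 1 := by
    rw [Nat.lt_succ_iff, Polynomial.natDegree_le_iff_coeff_eq_zero]
    intro j hj
    ext i
    rw [coeff_zero]
    by_contra h
    have := (hN i j h).2
    omega
  have hdeg2 : ∀ j, ((star F).coeff j).natDegree < N + 1 := by
    intro j
    rw [Nat.lt_succ_iff, Polynomial.natDegree_le_iff_coeff_eq_zero]
    intro i hi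
    by_contra h
    have := (hN i j h).1
    omega
  have hexp : ev φ (T ^ 2 - T) (T ^ 3 - T ^ 2 + ζ * Y0) ζ F =
      ∑ j ∈ Finset.range (N + 1), ∑ i ∈ Finset.range (N + 1),
        C (PowerSeries.C (φ (sc F i j)) * T ^ i * ζ ^ j) * (X + C Y0) ^ j := by
    rw [hev, RingHom.comp_apply, hΨ, coe_eval₂RingHom, eval₂_eq_sum_range' _ hdeg]
    refine Finset.sum_congr rfl fun j _ => ?_
    rw [hinn, coe_eval₂RingHom, eval₂_eq_sum_range' _ (hdeg2 j), Finset.sum_mul]
    refine Finset.sum_congr rfl fun i _ => ?_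
    have e : ι (((star F).coeff j).coeff i) = C (PowerSeries.C (φ (sc F i j))) := rfl
    rw [e, mul_pow, C_mul, C_mul, C_pow, C_pow]
    ring
  have hφ' : ∀ i j, φ (kern σ N M i j b n) = kern (φ σ) N M i j b n := by
    intro i j
    simp [kern]
  rw [hexp, finsetSum_coeff, Finset.mul_sum, map_sum, Finset.sum_comm, map_sum]
  refine Finset.sum_congr rfl fun j hj => ?_
  rw [Finset.mem_range] at hj
  rw [finsetSum_coeff, Finset.mul_sum, map_sum, map_sum]
  refine Finset.sum_congr rfl fun i _ => ?_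
  have hUX : (1 + PowerSeries.X : PowerSeries K) ^ j * U ^ j = 1 := by
    rw [← mul_pow, mul_comm, hU, one_pow]
  have hNi : N + i = (N + i - j) + j := by omega
  have hmain : (1 + PowerSeries.X : PowerSeries K) ^ N *
      (PowerSeries.C (φ (sc F i j)) * T ^ i * ζ ^ j * (Y0 ^ (j - b) * ((j.choose b : ℕ) : PowerSeries K))) =
      PowerSeries.C (φ (sc F i j) * φ τ ^ (q * i + p * j)) *
        ((1 + PowerSeries.X) ^ (N + i - j) * ((j.choose b : ℕ) : PowerSeries K) *
          Y0 ^ (j - b)) := by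
    have e1 : (1 + PowerSeries.X : PowerSeries K) ^ N * (1 + PowerSeries.X) ^ i * U ^ j =
        (1 + PowerSeries.X) ^ (N + i - j) := by
      rw [← pow_add, hNi, pow_add, mul_assoc, hUX, mul_one, ← hNi]
    rw [hT, hζ, mul_pow, mul_pow, map_mul, map_pow, map_pow, map_pow, ← e1, pow_add, pow_mul,
      pow_mul]
    ring
  rw [coeff_C_mul, coeff_X_add_C_pow, hmain, PowerSeries.coeff_C_mul, hY, kern_eq _ _ _ _ _ _ _ (by omega),
    map_mul, hφ', map_mul, map_pow]

end MP_cea741_ag.Nod
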