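import Mathlib
import Pool.Agent.Lib.MP_cea741_ag.Nod.Defs

namespace MP_cea741_ag.Nod

open Polynomial MP_cea741_ag

/-- Clearing denominators (IsLocalization.exist_integer_multiples_of_finite for
`v p = P.coeff (ex p)`; `polyOf_coeff`). -/
theorem clear {A K : Type*} [CommRing A] [IsDomain A] [Field K] [Algebra A K]
    [IsFractionRing A K] (d : ℕ) (P : MvPolynomial (Fin 2) K) (hP : P.totalDegree ≤ d)
    (hP0 : P ≠ 0) :
    ∃ (D : A) (u : Idx d → A), D ≠ 0 ∧ u ≠ 0 ∧
      MvPolynomial.map (algebraMap A K) (polyOf u) = MvPolynomial.C (algebraMap A K D) * P := by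
  obtain ⟨b, hb⟩ := IsLocalization.exist_integer_multiples_of_finite (nonZeroDivisors A)
    (fun p : Idx d => P.coeff (ex p))
  choose u hu using hb
  have hD : (b : A) ≠ 0 := nonZeroDivisors.coe_ne_zero b
  have hDK : algebraMap A K (b : A) ≠ 0 := fun h =>
    hD ((IsFractionRing.injective A K) (by rw [h, map_zero]))
  have hmap : MvPolynomial.map (algebraMap A K) (polyOf u) =
      MvPolynomial.C (algebraMap A K (b : A)) * P := by
    have h1 : MvPolynomial.map (algebraMap A K) (polyOf u) =
        polyOf (fun p => algebraMap A K (u p)) := by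
      simp only [polyOf, map_sum, MvPolynomial.map_monomial]
    have hdeg : (MvPolynomial.C (algebraMap A K (b : A)) * P).totalDegree ≤ d := by
      refine (MvPolynomial.totalDegree_mul _ _).trans ?_
      rw [MvPolynomial.totalDegree_C, zero_add]
      exact hP
    rw [h1, ← polyOf_coeff (MvPolynomial.C (algebraMap A K (b : A)) * P) hdeg]
    congr 1
    funext p
    rw [MvPolynomial.coeff_C_mul, hu p, Algebra.smul_def]
  refine ⟨b, u, hD, ?_, hmap⟩
  intro h0
  rw [h0] at hmap
  have h2 : MvPolynomial.map (algebraMap A K) (polyOf (0 : Idx d → A)) = 0 := by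
    simp [polyOf]
  rw [h2] at hmap
  rcases mul_eq_zero.1 hmap.symm with h | h
  · exact hDK (by simpa using h)
  · exact hP0 h

end MP_cea741_ag.Nod
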