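import Mathlib
import Pool.Agent.Lib.MP_cea741_ag.Nod.N15
import Pool.Agent.Lib.MP_cea741_ag.Nod.N17
import Pool.Agent.Lib.MP_cea741_ag.Nod.N18

namespace MP_cea741_ag.Nod

open Polynomial MP_cea741_ag

/-- `ev` after a change of coefficients. -/
private theorem n19_map {A K : Type*} [CommRing A] [CommRing K] (φ : A →+* K)
    (x y0 g1 : PowerSeries K) (F : MvPolynomial (Fin 2) A) :
    ev φ x y0 g1 F = ev (RingHom.id K) x y0 g1 (MvPolynomial.map φ F) := by
  unfold ev
  have h : (MvPolynomial.eval₂Hom (((C : PowerSeries K →+* (PowerSeries K)[X]).comp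
      (PowerSeries.C : K →+* PowerSeries K)).comp φ) ![C x, C y0 + C g1 * X]) =
      (MvPolynomial.eval₂Hom (((C : PowerSeries K →+* (PowerSeries K)[X]).comp
      (PowerSeries.C : K →+* PowerSeries K)).comp (RingHom.id K)) ![C x, C y0 + C g1 * X]).comp
        (MvPolynomial.map φ) := by
    refine MvPolynomial.ringHom_ext (fun c => ?_) (fun i => ?_)
    · simp
    · simp
  rw [h]
  rfl

/-- `ev` after a translation of the first variable. -/
private theorem n19_shift {K : Type*} [Field K] (a : K) (x y0 g1 : PowerSeries K)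
    (P : MvPolynomial (Fin 2) K) :
    ev (RingHom.id K) x y0 g1 (MvPolynomial.aeval ![MvPolynomial.X 0 - MvPolynomial.C a,
      MvPolynomial.X 1] P) = ev (RingHom.id K) (x - PowerSeries.C a) y0 g1 P := by
  have h : (ev (RingHom.id K) x y0 g1).comp (MvPolynomial.aeval ![MvPolynomial.X 0 - MvPolynomial.C a,
      MvPolynomial.X 1] : MvPolynomial (Fin 2) K →ₐ[K] MvPolynomial (Fin 2) K).toRingHom =
      ev (RingHom.id K) (x - PowerSeries.C a) y0 g1 := by
    unfold ev
    refine MvPolynomial.ringHom_ext (fun c => ?_) (fun i => ?_)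
    · simp [MvPolynomial.algebraMap_eq]
    · fin_cases i
      · simp
      · simp
  rw [← h]
  rfl

private theorem n19_coeff {K : Type*} [Field K] (t a : K) :
    PowerSeries.coeff 1 ((PowerSeries.C t * (1 + PowerSeries.X : PowerSeries K)) ^ 2 -
      PowerSeries.C t * (1 + PowerSeries.X) - PowerSeries.C a) = 2 * t ^ 2 - t := by
  have h1 : (PowerSeries.C t * (1 + PowerSeries.X : PowerSeries K)) ^ 2 -
      PowerSeries.C t * (1 + PowerSeries.X) - PowerSeries.C a =
      PowerSeries.C (t ^ 2) + PowerSeries.C (2 * t ^ 2) * PowerSeries.X +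
        PowerSeries.C (t ^ 2) * PowerSeries.X ^ 2 - PowerSeries.C t - PowerSeries.C t * PowerSeries.X -
          PowerSeries.C a := by
    simp only [map_mul, map_pow, map_ofNat]
    ring
  rw [h1]
  simp only [map_sub, map_add, PowerSeries.coeff_C_mul, PowerSeries.coeff_one_X,
    PowerSeries.coeff_C, PowerSeries.coeff_X_pow]
  simp

/-- FRONT. `A = k[σ][τ]`, `K = Frac A`. `T = τ^q (1+ξ)`, `a = τ^(2q) - τ^q`,
`x = T^2 - T - a` (constant coefficient `0`, linear coefficient `2 τ^(2q) - τ^q ≠ 0`),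
`ζ = τ^p / (1+ξ)`, `Y0 = 1 + σ (1+ξ)^M`, `y0 = T^3 - T^2 + ζ Y0`; `c` from `exists_germ`.
For `P` with `P.totalDegree ≤ d`, `P ≠ 0`: `P' = aeval ![X 0 - C a, X 1] P` has totalDegree `≤ d`
(totalDegree_aeval_le), is `≠ 0` (inverse substitution), and
`ev id (T^2-T) y0 ζ P' = ev id x y0 ζ P`. Clear denominators of `P'` (N18): `F = polyOf u`,
`ev φ (T^2-T) y0 ζ F = C(D) * ev id (T^2-T) y0 ζ P'`. By `transport` `X^(r(m-b))` divides the
coefficient `b`, so the coefficients `n < r(m-b)` of `(1+ξ)^N * (...)` vanish, and `expand` and the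
injectivity of `algebraMap A K` give `OrdCond`. -/
theorem front (k : Type*) [Field k] (r m d M p q : ℕ) (hq : 1 ≤ q) :
    ∃ c : Fin r → FractionRing k[X][X], ∀ P : MvPolynomial (Fin 2) (FractionRing k[X][X]),
      P.totalDegree ≤ d → Sm.eta (gpol r c) P ∈
        (Ideal.span {X, C (X ^ r)} : Ideal (FractionRing k[X][X])[X][X]) ^ m → P ≠ 0 →
      ∃ u : Idx d → k[X][X], u ≠ 0 ∧ ∀ N, (∀ i j, sc (polyOf u) i j ≠ 0 → i ≤ N ∧ j ≤ N) →
        OrdCond (C X : k[X][X]) r m N M fun i j => sc (polyOf u) i j * X ^ (q * i + p * j) := by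
  set K := FractionRing k[X][X] with hK
  set φ : k[X][X] →+* K := algebraMap k[X][X] K with hφ
  have hφi : Function.Injective φ := IsFractionRing.injective k[X][X] K
  set t : K := φ X ^ q with ht
  set U : PowerSeries K := (1 + PowerSeries.X)⁻¹ with hU
  have hU1 : U * (1 + PowerSeries.X) = 1 := by
    rw [hU]
    exact PowerSeries.inv_mul_cancel _ (by simp)
  set T : PowerSeries K := PowerSeries.C t * (1 + PowerSeries.X) with hT
  set ζ : PowerSeries K := PowerSeries.C (φ X ^ p) * U with hζ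
  set Y0 : PowerSeries K := 1 + PowerSeries.C (φ (C X)) * (1 + PowerSeries.X) ^ M with hY0
  set a : K := t ^ 2 - t with ha
  set x : PowerSeries K := T ^ 2 - T - PowerSeries.C a with hx
  set y0 : PowerSeries K := T ^ 3 - T ^ 2 + ζ * Y0 with hy0
  have hx0 : PowerSeries.constantCoeff x = 0 := by
    rw [hx, hT, ha]
    simp
  have ht0 : t ≠ 0 := by
    rw [ht]
    refine pow_ne_zero _ fun h => ?_
    have : (X : k[X][X]) = 0 := hφi (by rw [h, map_zero])
    exact X_ne_zero this
  have h2t : 2 * t - 1 ≠ 0 := by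
    intro h
    have h1 : φ (2 * X ^ q - 1) = 0 := by
      rw [map_sub, map_mul, map_pow, map_one, map_ofNat]
      exact h
    have h2 : (2 * X ^ q - 1 : k[X][X]) = 0 := hφi (by rw [h1, map_zero])
    have h3 := congrArg (fun f : k[X][X] => f.coeff 0) h2
    have hq0 : q ≠ 0 := by omega
    have h4 : ((2 : k[X][X]) * X ^ q).coeff 0 = 0 := by
      rw [mul_coeff_zero, coeff_X_pow, if_neg (by omega), mul_zero]
    simp only [coeff_sub, h4, coeff_one_zero, coeff_zero, zero_sub, neg_eq_zero] at h3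
    exact one_ne_zero h3
  have hx1 : PowerSeries.coeff 1 x ≠ 0 := by
    have h2 : PowerSeries.coeff 1 x = 2 * t ^ 2 - t := n19_coeff t a
    rw [h2, show 2 * t ^ 2 - t = t * (2 * t - 1) by ring]
    exact mul_ne_zero ht0 h2t
  obtain ⟨c, hc⟩ := exists_germ x y0 hx0 hx1 r
  refine ⟨c, fun P hP hmem hP0 => ?_⟩
  set P' : MvPolynomial (Fin 2) K := MvPolynomial.aeval ![MvPolynomial.X 0 - MvPolynomial.C a,
      MvPolynomial.X 1] P with hP'
  have hP'd : P'.totalDegree ≤ d := by
    refine (totalDegree_aeval_le _ ?_ P).trans hP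
    intro i
    fin_cases i
    · refine (MvPolynomial.totalDegree_sub _ _).trans ?_
      simp [MvPolynomial.totalDegree_X, MvPolynomial.totalDegree_C]
    · simp [MvPolynomial.totalDegree_X]
  have hP'0 : P' ≠ 0 := by
    intro h
    have h1 : MvPolynomial.aeval ![MvPolynomial.X 0 + MvPolynomial.C a, MvPolynomial.X 1] P' = P := by
      have h2 : (MvPolynomial.aeval ![MvPolynomial.X 0 + MvPolynomial.C a, MvPolynomial.X 1] :
          MvPolynomial (Fin 2) K →ₐ[K] MvPolynomial (Fin 2) K).comp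
          (MvPolynomial.aeval ![MvPolynomial.X 0 - MvPolynomial.C a, MvPolynomial.X 1]) =
          AlgHom.id K _ := by
        refine MvPolynomial.algHom_ext fun i => ?_
        fin_cases i
        · simp [MvPolynomial.algebraMap_eq]
        · simp
      have h3 := congrArg (fun f : MvPolynomial (Fin 2) K →ₐ[K] MvPolynomial (Fin 2) K => f P) h2
      exact h3
    rw [h, map_zero] at h1
    exact hP0 h1.symm
  obtain ⟨D, u, hD, hu, hmap⟩ := clear (A := k[X][X]) (K := K) d P' hP'd hP'0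
  refine ⟨u, hu, fun N hN b hb n hn => ?_⟩
  have htr := transport r m c x y0 ζ (PowerSeries.X_dvd_iff.2 hx0) hc P hmem b
  have hexp := expand φ (X : k[X][X]) (C X) p q N M U hU1 (polyOf u) hN T ζ Y0 rfl rfl rfl b n
  refine hφi ?_
  rw [map_zero, ← hexp, n19_map, hmap, map_mul (ev (RingHom.id K) (T ^ 2 - T) (T ^ 3 - T ^ 2 + ζ * Y0) ζ)]
  have h1 : ev (RingHom.id K) (T ^ 2 - T) (T ^ 3 - T ^ 2 + ζ * Y0) ζ P' =
      ev (RingHom.id K) x y0 ζ P := by
    rw [hP', n19_shift]
  have h2 : ev (RingHom.id K) (T ^ 2 - T) (T ^ 3 - T ^ 2 + ζ * Y0) ζ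
      (MvPolynomial.C (algebraMap k[X][X] K D)) = C (PowerSeries.C (algebraMap k[X][X] K D)) := by
    unfold ev
    simp
  rw [h1, h2, coeff_C_mul]
  have h3 : (PowerSeries.X : PowerSeries K) ^ (r * (m - b)) ∣ (1 + PowerSeries.X) ^ N *
      (PowerSeries.C (algebraMap k[X][X] K D) * (ev (RingHom.id K) x y0 ζ P).coeff b) :=
    Dvd.dvd.mul_left (Dvd.dvd.mul_left htr _) _
  exact PowerSeries.X_pow_dvd_iff.1 h3 n hn

end MP_cea741_ag.Nod
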