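import Mathlib
import Pool.Agent.Lib.MP_cea741_ag.Nod.Defs

namespace MP_cea741_ag.Nod

open Polynomial MP_cea741_ag

theorem n2_comp_inj {R : Type*} [CommRing R] [IsDomain R] :
    Function.Injective (Polynomial.compRingHom (X ^ 2 - X : R[X])) := by
  rw [injective_iff_map_eq_zero]
  intro P hP
  rw [Polynomial.coe_compRingHom_apply] at hP
  rcases Polynomial.comp_eq_zero_iff.mp hP with h | ⟨_, h⟩
  · exact h
  · exfalso
    have h2 := congrArg (fun q : R[X] => q.coeff 2) h
    simp [Polynomial.coeff_X, Polynomial.coeff_C] at h2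

/-- the standard identification `R[x, y] → R[x][y]`. -/
noncomputable def n2_toP (R : Type*) [CommRing R] : MvPolynomial (Fin 2) R →+* R[X][X] :=
  MvPolynomial.eval₂Hom ((C : R[X] →+* R[X][X]).comp C) ![C X, X]

theorem n2_toP_inj (R : Type*) [CommRing R] : Function.Injective (n2_toP R) := by
  have h : ((Polynomial.eval₂RingHom (Polynomial.eval₂RingHom (MvPolynomial.C : R →+* MvPolynomial (Fin 2) R)
      (MvPolynomial.X 0)) (MvPolynomial.X 1)).comp (n2_toP R)) = RingHom.id _ := by
    refine MvPolynomial.ringHom_ext ?_ ?_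
    · intro r
      simp [n2_toP]
    · intro i
      fin_cases i <;> simp [n2_toP]
  intro F G hFG
  have h1 := RingHom.congr_fun h F
  have h2 := RingHom.congr_fun h G
  simp only [RingHom.comp_apply, RingHom.id_apply] at h1 h2
  rw [← h1, ← h2, hFG]

theorem n2_factor {R : Type*} [CommRing R] (F : MvPolynomial (Fin 2) R) :
    (Polynomial.eval₂RingHom (C : R[X] →+* R[X][X]) (X - C (X ^ 3 - X ^ 2))) (star F) =
      Polynomial.map (Polynomial.compRingHom (X ^ 2 - X : R[X])) (n2_toP R F) := by
  have h : ((Polynomial.eval₂RingHom (C : R[X] →+* R[X][X]) (X - C (X ^ 3 - X ^ 2))).comp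
      (star (R := R))) =
      ((Polynomial.mapRingHom (Polynomial.compRingHom (X ^ 2 - X : R[X]))).comp (n2_toP R)) := by
    refine MvPolynomial.ringHom_ext ?_ ?_
    · intro r
      simp [n2_toP, star]
    · intro i
      fin_cases i
      · simp [n2_toP, star, ← map_pow]
      · simp [n2_toP, star, ← map_pow]
  exact RingHom.congr_fun h F

/-- `star` is injective. Proof: `z ↦ z - (t^3-t^2)` maps `star F` to `F(t^2-t, z)`
(eval₂RingHom C (X - C (X^3-X^2)) : R[X][X] →+* R[X][X]), whose coefficients are
`c.comp (X^2-X)`, with `c` the coefficients of `F` as a polynomial in `y` over `R[x]`; and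
`c.comp (X^2-X) = 0 → c = 0` over a domain. Or: by strong induction on totalDegree with N1:
`star F = 0` gives `F = nodal * G`, `star (nodal R) ≠ 0`, so `star G = 0`, and
`totalDegree G < totalDegree F`. -/
theorem star_ne {R : Type*} [CommRing R] [IsDomain R] (F : MvPolynomial (Fin 2) R) (hF : F ≠ 0) :
    ∃ i j, sc F i j ≠ 0 := by
  by_contra hcon
  push Not at hcon
  apply hF
  have h0 : star F = 0 := by
    ext j i
    simpa [sc] using hcon i j
  have h1 := n2_factor F
  rw [h0, map_zero] at h1
  have h2 : n2_toP R F = 0 :=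
    (Polynomial.map_injective _ n2_comp_inj) (by rw [← h1, Polynomial.map_zero])
  exact n2_toP_inj R (by rw [h2, map_zero])

end MP_cea741_ag.Nod
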