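import Mathlib
import Pool.Agent.Lib.MP_cea741_ag.Nod.Defs

namespace MP_cea741_ag.Nod

open Polynomial MP_cea741_ag

/-- restriction to the nodal cubic -/
noncomputable def n1_phi (R : Type*) [CommRing R] : MvPolynomial (Fin 2) R →+* R[X] :=
  (evalRingHom (0 : R[X])).comp star

theorem n1_phi_eq {R : Type*} [CommRing R] (F : MvPolynomial (Fin 2) R) :
    n1_phi R F = (star F).coeff 0 := by
  rw [n1_phi, RingHom.comp_apply, coe_evalRingHom, Polynomial.coeff_zero_eq_eval_zero]

theorem n1_phi_C {R : Type*} [CommRing R] (a : R) : n1_phi R (MvPolynomial.C a) = C a := by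
  simp [n1_phi, star]

theorem n1_phi_X0 {R : Type*} [CommRing R] : n1_phi R (MvPolynomial.X 0) = X ^ 2 - X := by
  simp [n1_phi, star]

theorem n1_phi_X1 {R : Type*} [CommRing R] : n1_phi R (MvPolynomial.X 1) = X ^ 3 - X ^ 2 := by
  simp [n1_phi, star]

theorem n1_phi_aeval {R : Type*} [CommRing R] (α : R[X]) :
    n1_phi R (aeval (MvPolynomial.X 0 : MvPolynomial (Fin 2) R) α) = α.comp (X ^ 2 - X) := by
  rw [aeval_def, hom_eval₂, n1_phi_X0, Polynomial.comp]
  congr 1
  ext a
  simp [n1_phi_C, MvPolynomial.algebraMap_eq]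

theorem n1_decomp {R : Type*} [CommRing R] (F : MvPolynomial (Fin 2) R) :
    ∃ (Q : MvPolynomial (Fin 2) R) (α β : R[X]),
      F = nodal R * Q + aeval (MvPolynomial.X 0 : MvPolynomial (Fin 2) R) α +
        aeval (MvPolynomial.X 0 : MvPolynomial (Fin 2) R) β * MvPolynomial.X 1 := by
  induction F using MvPolynomial.induction_on with
  | C a =>
    exact ⟨0, C a, 0, by simp [MvPolynomial.algebraMap_eq]⟩
  | add F G hF hG =>
    obtain ⟨Q, α, β, h⟩ := hF
    obtain ⟨Q', α', β', h'⟩ := hG
    refine ⟨Q + Q', α + α', β + β', ?_⟩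
    rw [map_add, map_add]
    linear_combination h + h'
  | mul_X F i hF =>
    obtain ⟨Q, α, β, h⟩ := hF
    have hi : i = 0 ∨ i = 1 := by fin_cases i <;> simp
    rcases hi with rfl | rfl
    · refine ⟨Q * MvPolynomial.X 0, X * α, X * β, ?_⟩
      rw [map_mul, map_mul, aeval_X]
      linear_combination h * MvPolynomial.X 0
    · refine ⟨Q * MvPolynomial.X 1 + aeval (MvPolynomial.X 0 : MvPolynomial (Fin 2) R) β,
        β * X ^ 3, α + β * X, ?_⟩
      rw [map_mul, map_add, map_mul, map_pow, aeval_X]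
      have hn : (MvPolynomial.X 1 : MvPolynomial (Fin 2) R) ^ 2 =
          nodal R + MvPolynomial.X 0 * MvPolynomial.X 1 + MvPolynomial.X 0 ^ 3 := by
        rw [nodal]; ring
      linear_combination h * MvPolynomial.X 1 +
        aeval (MvPolynomial.X 0 : MvPolynomial (Fin 2) R) β * hn

/-- If `F(t^2-t, t^3-t^2) = 0` then the nodal cubic divides `F`.
Proof. `y^2 = nodal + x y + x^3`, so by induction (MvPolynomial.induction_on or on powers of y)
`F = nodal * Q + α(x) + β(x) y` with `α, β` univariate. Applying `F ↦ F(t^2-t, t^3-t^2)` (this is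
`(star F).coeff 0`, a ring homomorphism: coeff 0 of R[X][X], star(nodal).coeff 0 = 0):
`α(t^2-t) + β(t^2-t) (t^3-t^2) = 0`. Degrees: `natDegree (α.comp (X^2-X)) = 2 natDegree α` is even,
the other one is `2 natDegree β + 3` odd (R is a domain: `natDegree_comp`), so both are `0`. -/
theorem nodal_dvd {R : Type*} [CommRing R] [IsDomain R] (F : MvPolynomial (Fin 2) R)
    (h : (star F).coeff 0 = 0) : nodal R ∣ F := by
  obtain ⟨Q, α, β, hF⟩ := n1_decomp F
  have h1 : n1_phi R F = 0 := by rw [n1_phi_eq, h]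
  have hnod : n1_phi R (nodal R) = 0 := by
    rw [nodal]
    simp only [map_sub, map_mul, map_pow, n1_phi_X0, n1_phi_X1]
    ring
  have h2 : α.comp (X ^ 2 - X) + β.comp (X ^ 2 - X) * (X ^ 3 - X ^ 2) = 0 := by
    have := congrArg (n1_phi R) hF
    rw [h1, map_add, map_add, map_mul, map_mul, hnod, n1_phi_aeval, n1_phi_aeval, n1_phi_X1,
      zero_mul, zero_add] at this
    exact this.symm
  have d2 : (X ^ 2 - X : R[X]).natDegree = 2 := by compute_degree!
  have d3 : (X ^ 3 - X ^ 2 : R[X]).natDegree = 3 := by compute_degree!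
  have n3 : (X ^ 3 - X ^ 2 : R[X]) ≠ 0 := by
    intro h0
    rw [h0, natDegree_zero] at d3
    omega
  have hcomp : ∀ p : R[X], p.comp (X ^ 2 - X) = 0 → p = 0 := by
    intro p hp
    rcases (Polynomial.comp_eq_zero_iff).mp hp with h0 | ⟨_, h0⟩
    · exact h0
    · exfalso
      have := congrArg natDegree h0
      rw [d2, natDegree_C] at this
      omega
  have hβ : β = 0 := by
    by_contra hb
    have hb2 : β.comp (X ^ 2 - X) ≠ 0 := fun h0 => hb (hcomp β h0)
    have e1 : α.comp (X ^ 2 - X) = -(β.comp (X ^ 2 - X) * (X ^ 3 - X ^ 2)) := by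
      linear_combination h2
    have e2 := congrArg natDegree e1
    rw [natDegree_neg, natDegree_mul hb2 n3, natDegree_comp, natDegree_comp, d2, d3] at e2
    omega
  have hα : α = 0 := by
    apply hcomp
    rw [hβ] at h2
    simpa using h2
  refine ⟨Q, ?_⟩
  rw [hF, hα, hβ]
  simp

end MP_cea741_ag.Nod
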