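import Mathlib
import Pool.Agent.Lib.MP_cea741_ag.Nod.Defs

namespace MP_cea741_ag.Nod

open Polynomial MP_cea741_ag

theorem n3_star_X0 {R : Type*} [CommRing R] :
    star (MvPolynomial.X 0 : MvPolynomial (Fin 2) R) = C (X ^ 2 - X) := by
  simp [star]

theorem n3_star_X1 {R : Type*} [CommRing R] :
    star (MvPolynomial.X 1 : MvPolynomial (Fin 2) R) = X + C (X ^ 3 - X ^ 2) := by
  simp [star]

theorem n3_star_C {R : Type*} [CommRing R] (a : R) :
    star (MvPolynomial.C a : MvPolynomial (Fin 2) R) = C (C a) := by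
  simp [star]

/-- the restriction to the nodal cubic. -/
theorem n3_coeff_zero {R : Type*} [CommRing R] (F : MvPolynomial (Fin 2) R) :
    (star F).coeff 0 = MvPolynomial.eval₂Hom C ![X ^ 2 - X, X ^ 3 - X ^ 2] F := by
  have h : (constantCoeff : R[X][X] →+* R[X]).comp star =
      MvPolynomial.eval₂Hom C ![X ^ 2 - X, X ^ 3 - X ^ 2] := by
    apply MvPolynomial.ringHom_ext
    · intro a
      rw [RingHom.comp_apply, n3_star_C]
      simp
    · intro i
      fin_cases i
      · change constantCoeff (star (MvPolynomial.X 0)) = _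
        rw [n3_star_X0, constantCoeff_apply, coeff_C_zero]
        simp
      · change constantCoeff (star (MvPolynomial.X 1)) = _
        rw [n3_star_X1, constantCoeff_apply, coeff_add, coeff_C_zero]
        simp
  exact congrArg (fun φ => φ F) h

theorem n3_natDegree {R : Type*} [CommRing R] [IsDomain R] (d : ℕ)
    (F : MvPolynomial (Fin 2) R) (hF : F.totalDegree ≤ d) :
    ((star F).coeff 0).natDegree ≤ 3 * d := by
  rw [n3_coeff_zero, MvPolynomial.coe_eval₂Hom, MvPolynomial.eval₂_eq']
  refine natDegree_sum_le_of_forall_le _ _ fun u hu => ?_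
  rw [Fin.prod_univ_two]
  have h1 : u 0 + u 1 ≤ d := by
    have := MvPolynomial.le_totalDegree hu
    rw [Finsupp.sum_fintype _ _ (fun _ => rfl), Fin.sum_univ_two] at this
    exact this.trans hF
  refine (natDegree_C_mul_le _ _).trans ?_
  refine natDegree_mul_le.trans ?_
  have e0 : ((![X ^ 2 - X, X ^ 3 - X ^ 2] : Fin 2 → R[X]) 0 ^ u 0).natDegree ≤ u 0 * 2 := by
    refine natDegree_pow_le_of_le _ ?_
    change (X ^ 2 - X : R[X]).natDegree ≤ 2
    compute_degree
  have e1 : ((![X ^ 2 - X, X ^ 3 - X ^ 2] : Fin 2 → R[X]) 1 ^ u 1).natDegree ≤ u 1 * 3 := by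
    refine natDegree_pow_le_of_le _ ?_
    change (X ^ 3 - X ^ 2 : R[X]).natDegree ≤ 3
    compute_degree
  omega

/-- the other branch of the node -/
theorem n3_other {R : Type*} [CommRing R] (F : MvPolynomial (Fin 2) R) :
    ((star F).coeff 0).comp (1 - X) = (star F).eval (X * (-1 + 3 * X - 2 * X ^ 2)) := by
  have h : (compRingHom (1 - X : R[X])).comp ((constantCoeff : R[X][X] →+* R[X]).comp star) =
      (evalRingHom (X * (-1 + 3 * X - 2 * X ^ 2) : R[X])).comp star := by
    apply MvPolynomial.ringHom_ext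
    · intro a
      rw [RingHom.comp_apply, RingHom.comp_apply, RingHom.comp_apply, n3_star_C]
      simp
    · intro i
      rw [RingHom.comp_apply, RingHom.comp_apply, RingHom.comp_apply]
      fin_cases i
      · change compRingHom _ (constantCoeff (star (MvPolynomial.X 0))) =
          evalRingHom _ (star (MvPolynomial.X 0))
        rw [n3_star_X0]
        simp only [constantCoeff_apply, coeff_C_zero, coe_compRingHom_apply, sub_comp, pow_comp,
          X_comp, coe_evalRingHom, eval_C]
        ring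
      · change compRingHom _ (constantCoeff (star (MvPolynomial.X 1))) =
          evalRingHom _ (star (MvPolynomial.X 1))
        rw [n3_star_X1]
        simp only [constantCoeff_apply, coeff_add, coeff_X_zero, coeff_C_zero,
          coe_compRingHom_apply, sub_comp, pow_comp, zero_add,
          X_comp, coe_evalRingHom, eval_C, eval_add, eval_X]
        ring
  exact congrArg (fun φ => φ F) h

theorem n3_order_one {R : Type*} [CommRing R] {F : MvPolynomial (Fin 2) R} {p q v : ℕ}
    (hqp : q ≤ p) (hv : ∀ i j, sc F i j ≠ 0 → v ≤ q * i + p * j) {b : ℕ}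
    (hb : (((star F).coeff 0).comp (1 - X)).coeff b ≠ 0) : v ≤ p * b := by
  rw [n3_other, eval_eq_sum_range, finsetSum_coeff] at hb
  obtain ⟨j, _, hj⟩ := Finset.exists_ne_zero_of_sum_ne_zero hb
  rw [mul_pow, mul_left_comm, coeff_X_pow_mul'] at hj
  split_ifs at hj with h1
  swap
  · exact absurd rfl hj
  rw [coeff_mul] at hj
  obtain ⟨⟨i, i'⟩, hi, hi'⟩ := Finset.exists_ne_zero_of_sum_ne_zero hj
  rw [Finset.HasAntidiagonal.mem_antidiagonal] at hi
  have h2 := hv i j (left_ne_zero_of_mul hi')
  simp only at hi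
  have h3 : q * i ≤ p * i := Nat.mul_le_mul_right _ hqp
  have h4 : p * (i + j) ≤ p * b := Nat.mul_le_mul_left _ (by omega)
  rw [mul_add] at h4
  omega

theorem base_weight {R : Type*} [CommRing R] [IsDomain R] (p q d v : ℕ) (hqp : q ≤ p)
    (F : MvPolynomial (Fin 2) R) (hF : F.totalDegree ≤ d) (h0 : (star F).coeff 0 ≠ 0)
    (hv : ∀ i j, sc F i j ≠ 0 → v ≤ q * i + p * j) : v * (p + q) ≤ 3 * d * (p * q) := by
  set g := (star F).coeff 0 with hg
  set g' := g.comp (1 - X) with hg'
  have hgg : g'.comp (1 - X) = g := by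
    rw [hg', comp_assoc, sub_comp, one_comp, X_comp, sub_sub_cancel, comp_X]
  have hg'0 : g' ≠ 0 := by
    intro h; rw [h, zero_comp] at hgg; exact h0 hgg.symm
  set a := g.natTrailingDegree with ha
  set b := g'.natTrailingDegree with hb
  have h1 : v ≤ q * a := by
    have := hv a 0 (mem_support_iff.1 (natTrailingDegree_mem_support_of_nonzero h0))
    simpa using this
  have h2 : v ≤ p * b :=
    n3_order_one hqp hv (mem_support_iff.1 (natTrailingDegree_mem_support_of_nonzero hg'0))
  have h3 : X ^ a ∣ g := X_pow_dvd_iff.2 fun n hn => coeff_eq_zero_of_lt_natTrailingDegree hn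
  have h4 : (1 - X : R[X]) ^ b ∣ g := by
    have h5 : X ^ b ∣ g' := X_pow_dvd_iff.2 fun n hn => coeff_eq_zero_of_lt_natTrailingDegree hn
    obtain ⟨u, hu⟩ := h5
    rw [← hgg, hu, mul_comp, pow_comp, X_comp]
    exact dvd_mul_right _ _
  have h6 : IsCoprime (X ^ a : R[X]) ((1 - X) ^ b) :=
    IsCoprime.pow ⟨1, 1, by ring⟩
  have h7 := h6.mul_dvd h3 h4
  have h8 : (1 - X : R[X]).natDegree = 1 := by
    compute_degree!
  have h9 : (1 - X : R[X]) ≠ 0 := by
    intro h; rw [h] at h8; simp at h8
  have h10 := natDegree_le_of_dvd h7 h0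
  rw [natDegree_mul (pow_ne_zero _ X_ne_zero) (pow_ne_zero _ h9), natDegree_X_pow, natDegree_pow,
    h8, mul_one] at h10
  have h11 := h10.trans (n3_natDegree d F hF)
  have h12 : p * v ≤ p * (q * a) := Nat.mul_le_mul_left _ h1
  have h13 : q * v ≤ q * (p * b) := Nat.mul_le_mul_left _ h2
  have h14 : p * q * (a + b) ≤ p * q * (3 * d) := Nat.mul_le_mul_left _ h11
  nlinarith

end MP_cea741_ag.Nod
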