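import Mathlib
import Pool.Agent.Lib.MP_cea741_ag.Nod.Defs

namespace MP_cea741_ag.Nod

open Polynomial MP_cea741_ag

theorem n4_star_nodal (R : Type*) [CommRing R] :
    star (nodal R) = X ^ 2 + C (2 * X ^ 3 - 3 * X ^ 2 + X) * X := by
  simp only [star, nodal, map_sub, map_mul, map_pow, MvPolynomial.coe_eval₂Hom,
    MvPolynomial.eval₂_X, Matrix.cons_val_zero, Matrix.cons_val_one, Matrix.cons_val_fin_one]
  simp only [map_sub, map_pow, map_add, map_mul, map_ofNat]
  ring

theorem n4_coeff_zero {R : Type*} [CommRing R] (G : MvPolynomial (Fin 2) R) :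
    (star (nodal R * G)).coeff 0 = 0 := by
  rw [map_mul, n4_star_nodal]
  simp [Polynomial.mul_coeff_zero]

theorem n4_coeff_one {R : Type*} [CommRing R] (G : MvPolynomial (Fin 2) R) :
    (star (nodal R * G)).coeff 1 = (2 * X ^ 3 - 3 * X ^ 2 + X) * (star G).coeff 0 := by
  rw [map_mul, n4_star_nodal, add_mul, coeff_add, mul_assoc, coeff_C_mul, coeff_X_pow_mul']
  have h : (X * star G : R[X][X]).coeff 1 = (star G).coeff 0 := by
    rw [coeff_X_mul]
  rw [h]
  simp

theorem n4_coeff_add_two {R : Type*} [CommRing R] (G : MvPolynomial (Fin 2) R) (j : ℕ) :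
    (star (nodal R * G)).coeff (j + 2) =
      (2 * X ^ 3 - 3 * X ^ 2 + X) * (star G).coeff (j + 1) + (star G).coeff j := by
  rw [map_mul, n4_star_nodal, add_mul, coeff_add, mul_assoc, coeff_C_mul, coeff_X_pow_mul]
  have h : (X * star G : R[X][X]).coeff (j + 2) = (star G).coeff (j + 1) := by
    rw [coeff_X_mul]
  rw [h]
  ring

theorem n4_cub_coeff {R : Type*} [CommRing R] (P : R[X]) (i : ℕ) :
    ((2 * X ^ 3 - 3 * X ^ 2 + X) * P).coeff i =
      (if 3 ≤ i then 2 * P.coeff (i - 3) else 0) - (if 2 ≤ i then 3 * P.coeff (i - 2) else 0)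
        + (if 1 ≤ i then P.coeff (i - 1) else 0) := by
  have e : (2 * X ^ 3 - 3 * X ^ 2 + X) * P = C 2 * (X ^ 3 * P) - C 3 * (X ^ 2 * P) + X ^ 1 * P := by
    simp only [map_ofNat]
    ring
  rw [e, coeff_add, coeff_sub, coeff_C_mul, coeff_C_mul, coeff_X_pow_mul', coeff_X_pow_mul',
    coeff_X_pow_mul']
  simp only [mul_ite, mul_zero]

/-- sources of a nonzero coefficient of `nodal * G`. -/
theorem n4_source {R : Type*} [CommRing R] (G : MvPolynomial (Fin 2) R) (i j : ℕ)
    (hij : sc (nodal R * G) i j ≠ 0) :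
    ∃ a b, sc G a b ≠ 0 ∧ ((i = a + 1 ∧ j = b + 1) ∨ (i = a + 2 ∧ j = b + 1) ∨
      (i = a + 3 ∧ j = b + 1) ∨ (i = a ∧ j = b + 2)) := by
  by_contra hcon
  push Not at hcon
  apply hij
  have H1 : ∀ a b, i = a + 1 → j = b + 1 → sc G a b = 0 := by
    intro a b ha hb
    by_contra h
    exact (hcon a b h).1 ha hb
  have H2 : ∀ a b, i = a + 2 → j = b + 1 → sc G a b = 0 := by
    intro a b ha hb
    by_contra h
    exact (hcon a b h).2.1 ha hb
  have H3 : ∀ a b, i = a + 3 → j = b + 1 → sc G a b = 0 := by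
    intro a b ha hb
    by_contra h
    exact (hcon a b h).2.2.1 ha hb
  have H4 : ∀ a b, i = a → j = b + 2 → sc G a b = 0 := by
    intro a b ha hb
    by_contra h
    exact (hcon a b h).2.2.2 ha hb
  have key : ∀ b, j = b + 1 → ((2 * X ^ 3 - 3 * X ^ 2 + X) * (star G).coeff b).coeff i = 0 := by
    intro b hb
    rw [n4_cub_coeff]
    have t3 : (if 3 ≤ i then 2 * ((star G).coeff b).coeff (i - 3) else 0) = 0 := by
      split_ifs with h
      · have := H3 (i - 3) b (by omega) hb
        unfold sc at this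
        rw [this, mul_zero]
      · rfl
    have t2 : (if 2 ≤ i then 3 * ((star G).coeff b).coeff (i - 2) else 0) = 0 := by
      split_ifs with h
      · have := H2 (i - 2) b (by omega) hb
        unfold sc at this
        rw [this, mul_zero]
      · rfl
    have t1 : (if 1 ≤ i then ((star G).coeff b).coeff (i - 1) else 0) = 0 := by
      split_ifs with h
      · have := H1 (i - 1) b (by omega) hb
        unfold sc at this
        rw [this]
      · rfl
    rw [t1, t2, t3]
    ring
  unfold sc
  rcases j with _ | _ | j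
  · rw [n4_coeff_zero, coeff_zero]
  · show ((star (nodal R * G)).coeff 1).coeff i = 0
    rw [n4_coeff_one]
    exact key 0 rfl
  · rw [n4_coeff_add_two, coeff_add, key (j + 1) rfl, zero_add]
    exact H4 i j rfl rfl

/-- the product term survives. -/
theorem n4_target {R : Type*} [CommRing R] (G : MvPolynomial (Fin 2) R) (i j : ℕ)
    (h1 : ∀ a, a < i → sc G a j = 0) (h2 : ∀ b, j = b + 1 → sc G (i + 1) b = 0) :
    sc (nodal R * G) (i + 1) (j + 1) = sc G i j := by
  have key : ((2 * X ^ 3 - 3 * X ^ 2 + X) * (star G).coeff j).coeff (i + 1) =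
      ((star G).coeff j).coeff i := by
    rw [n4_cub_coeff]
    have t3 : (if 3 ≤ i + 1 then 2 * ((star G).coeff j).coeff (i + 1 - 3) else 0) = 0 := by
      split_ifs with h
      · have := h1 (i + 1 - 3) (by omega)
        unfold sc at this
        rw [this, mul_zero]
      · rfl
    have t2 : (if 2 ≤ i + 1 then 3 * ((star G).coeff j).coeff (i + 1 - 2) else 0) = 0 := by
      split_ifs with h
      · have := h1 (i + 1 - 2) (by omega)
        unfold sc at this
        rw [this, mul_zero]
      · rfl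
    rw [t2, t3]
    simp
  unfold sc
  rcases j with _ | j
  · show ((star (nodal R * G)).coeff 1).coeff (i + 1) = _
    rw [n4_coeff_one]
    exact key
  · show ((star (nodal R * G)).coeff (j + 2)).coeff (i + 1) = _
    rw [n4_coeff_add_two, coeff_add, key]
    have := h2 j rfl
    unfold sc at this
    rw [this, add_zero]

/-- The initial monomials of `star (nodal * G)` are those of `star G` times `t z`.
Proof. `star nodal = X^2 + C (2 t^3 - 3 t^2 + t) X` (outer variable z), so
`sc F (i+1) (j+1) = sc G i j - 3 sc G (i-1) j + 2 sc G (i-2) j + sc G (i+1) (j-1)` (with terms of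
negative index 0). Let `v` be the minimal weight `q i + p j` with `sc G i j ≠ 0`, attained at
`(i0, j0)`: then `sc F (i0+1) (j0+1) ≠ 0` because the other terms have weight `< v` (`q < p`).
So the minimal weight of `F` is `≤ v + p + q`, and for `(i,j)` of minimal weight in `F` the same
formula shows `i, j ≥ 1` and `sc G (i-1) (j-1) ≠ 0` of weight `≤ v`, so `= v`. -/
theorem step_weight {R : Type*} [CommRing R] [IsDomain R] (p q : ℕ) (hq : 1 ≤ q) (hqp : q < p)
    (G : MvPolynomial (Fin 2) R) (i j : ℕ) (hij : sc (nodal R * G) i j ≠ 0)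
    (hmin : ∀ i' j', sc (nodal R * G) i' j' ≠ 0 → q * i + p * j ≤ q * i' + p * j') :
    ∃ i0 j0, i = i0 + 1 ∧ j = j0 + 1 ∧ sc G i0 j0 ≠ 0 ∧
      ∀ i' j', sc G i' j' ≠ 0 → q * i0 + p * j0 ≤ q * i' + p * j' := by
  classical
  obtain ⟨a, b, hab, hcase⟩ := n4_source G i j hij
  have hex : ∃ v, ∃ a b, sc G a b ≠ 0 ∧ q * a + p * b = v := ⟨_, a, b, hab, rfl⟩
  obtain ⟨i0, j0, h0, hv⟩ := Nat.find_spec hex
  have hvmin : ∀ i' j', sc G i' j' ≠ 0 → Nat.find hex ≤ q * i' + p * j' := by
    intro i' j' h
    exact Nat.find_min' hex ⟨i', j', h, rfl⟩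
  generalize hvdef : Nat.find hex = v at hv hvmin
  have htar : sc (nodal R * G) (i0 + 1) (j0 + 1) ≠ 0 := by
    rw [n4_target G i0 j0]
    · exact h0
    · intro a ha
      by_contra h
      have := hvmin a j0 h
      have h2 : q * a < q * i0 := Nat.mul_lt_mul_of_pos_left ha (by omega)
      omega
    · intro b hb
      by_contra h
      have := hvmin (i0 + 1) b h
      subst hb
      have e1 : q * (i0 + 1) = q * i0 + q := by ring
      have e2 : p * (b + 1) = p * b + p := by ring
      omega
  have hF := hmin _ _ htar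
  have e1 : q * (i0 + 1) = q * i0 + q := by ring
  have e2 : p * (j0 + 1) = p * j0 + p := by ring
  have hw := hvmin a b hab
  rcases hcase with ⟨ha, hb⟩ | ⟨ha, hb⟩ | ⟨ha, hb⟩ | ⟨ha, hb⟩
  · refine ⟨a, b, ha, hb, hab, ?_⟩
    intro i' j' h
    have := hvmin i' j' h
    subst ha
    subst hb
    have e3 : q * (a + 1) = q * a + q := by ring
    have e4 : p * (b + 1) = p * b + p := by ring
    omega
  · exfalso
    subst ha
    subst hb
    have e3 : q * (a + 2) = q * a + 2 * q := by ring
    have e4 : p * (b + 1) = p * b + p := by ring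
    omega
  · exfalso
    subst ha
    subst hb
    have e3 : q * (a + 3) = q * a + 3 * q := by ring
    have e4 : p * (b + 1) = p * b + p := by ring
    omega
  · exfalso
    subst ha
    subst hb
    have e4 : p * (b + 2) = p * b + 2 * p := by ring
    omega

end MP_cea741_ag.Nod
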