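import Mathlib
import Pool.Agent.Lib.MP_cea741_ag.Nod.Defs
import Pool.Agent.Lib.MP_cea741_ag.Nod.N1
import Pool.Agent.Lib.MP_cea741_ag.Nod.N3
import Pool.Agent.Lib.MP_cea741_ag.Nod.N4

namespace MP_cea741_ag.Nod

open Polynomial MP_cea741_ag

theorem n5_nodal_coeff {R : Type*} [CommRing R] :
    (nodal R).coeff (Finsupp.single 0 3) = -1 := by
  have e2 : (MvPolynomial.X 1 ^ 2 : MvPolynomial (Fin 2) R).coeff (Finsupp.single 0 3) = 0 := by
    rw [MvPolynomial.coeff_X_pow]
    rw [if_neg]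
    intro h
    have := DFunLike.congr_fun h 1
    simp at this
  have e3 : (MvPolynomial.X 0 * MvPolynomial.X 1 : MvPolynomial (Fin 2) R).coeff
      (Finsupp.single 0 3) = 0 := by
    rw [MvPolynomial.coeff_mul_X']
    rw [if_neg]
    simp
  have e4 : (MvPolynomial.X 0 ^ 3 : MvPolynomial (Fin 2) R).coeff (Finsupp.single 0 3) = 1 := by
    rw [MvPolynomial.coeff_X_pow]
    simp
  unfold nodal
  rw [MvPolynomial.coeff_sub, MvPolynomial.coeff_sub, e2, e3, e4]
  ring

theorem n5_nodal_deg {R : Type*} [CommRing R] [Nontrivial R] : 3 ≤ (nodal R).totalDegree := by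
  have h : (Finsupp.single (0 : Fin 2) 3) ∈ (nodal R).support := by
    rw [MvPolynomial.mem_support_iff, n5_nodal_coeff]
    exact neg_ne_zero.mpr one_ne_zero
  have := MvPolynomial.le_totalDegree h
  simpa using this

/-- LEMMA 1. Proof by strong induction on `d` (or on totalDegree F).
If `(star F).coeff 0 ≠ 0`: by N3 (with `v = q i + p j`) `(q i + p j)(p+q) ≤ 3 d p q`; and
`9 p q ≤ (p+q)^2` because `8 q ≤ p`; then `q*((i-j)(p+q) + 9 p j) ≤ (q i + p j)(p+q)` and
`p*((j-i)(p+q) + 9 q i) ≤ (q i + p j)(p+q)`.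
If `(star F).coeff 0 = 0`: by N1 `F = nodal * G`, `G ≠ 0`, `totalDegree F = 3 + totalDegree G`
(MvPolynomial.totalDegree_mul_of_isDomain), N4 gives `(i,j) = (i0+1, j0+1)`; use the induction
hypothesis for `G`, `d - 3`. -/
theorem lemma1 {R : Type*} [CommRing R] [IsDomain R] (p q : ℕ) (hq : 1 ≤ q) (hp : 8 * q ≤ p)
    (d : ℕ) (F : MvPolynomial (Fin 2) R) (hF : F.totalDegree ≤ d) (i j : ℕ) (hij : sc F i j ≠ 0)
    (hmin : ∀ i' j', sc F i' j' ≠ 0 → q * i + p * j ≤ q * i' + p * j') :
    ((i : ℤ) - j) * (p + q) + 9 * p * j ≤ 3 * d * p ∧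
      ((j : ℤ) - i) * (p + q) + 9 * q * i ≤ 3 * d * q := by
  induction d using Nat.strong_induction_on generalizing F i j with
  | _ d ih =>
  by_cases h0 : (star F).coeff 0 = 0
  · obtain ⟨G, hG⟩ := nodal_dvd F h0
    have hF0 : F ≠ 0 := by
      intro h
      apply hij
      unfold sc
      rw [h, map_zero, coeff_zero, coeff_zero]
    have hG0 : G ≠ 0 := by
      intro h
      apply hF0
      rw [hG, h, mul_zero]
    have hn0 : nodal R ≠ 0 := by
      intro h
      apply hF0
      rw [hG, h, zero_mul]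
    have hdeg : F.totalDegree = (nodal R).totalDegree + G.totalDegree := by
      rw [hG]
      exact MvPolynomial.totalDegree_mul_of_isDomain hn0 hG0
    have h3 := n5_nodal_deg (R := R)
    subst hG
    obtain ⟨i0, j0, hi, hj, hsc, hm⟩ := step_weight p q hq (by omega) G i j hij hmin
    have hd3 : 3 ≤ d := by omega
    obtain ⟨k1, k2⟩ := ih (d - 3) (by omega) G (by omega) i0 j0 hsc hm
    have hdc : ((d - 3 : ℕ) : ℤ) = (d : ℤ) - 3 := by
      rw [Nat.cast_sub hd3]
      norm_num
    rw [hdc] at k1 k2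
    subst hi
    subst hj
    push_cast
    constructor
    · nlinarith [k1]
    · nlinarith [k2]
  · have hv := base_weight p q d (q * i + p * j) (by omega) F hF h0 hmin
    have hv' : ((q : ℤ) * i + p * j) * (p + q) ≤ 3 * d * (p * q) := by exact_mod_cast hv
    have hqz : (1 : ℤ) ≤ q := by exact_mod_cast hq
    have hpz : 8 * (q : ℤ) ≤ p := by exact_mod_cast hp
    have hi : (0 : ℤ) ≤ i := Int.natCast_nonneg i
    have hj : (0 : ℤ) ≤ j := Int.natCast_nonneg j
    have h9 : 9 * ((p : ℤ) * q) ≤ (p + q) ^ 2 := by nlinarith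
    have hj9 := mul_le_mul_of_nonneg_left h9 hj
    have hi9 := mul_le_mul_of_nonneg_left h9 hi
    constructor
    · have h1 : (q : ℤ) * (((i : ℤ) - j) * (p + q) + 9 * p * j) ≤ q * (3 * d * p) := by
        nlinarith [hv', hj9]
      exact le_of_mul_le_mul_left h1 (by linarith)
    · have h1 : (p : ℤ) * (((j : ℤ) - i) * (p + q) + 9 * q * i) ≤ p * (3 * d * q) := by
        nlinarith [hv', hi9]
      exact le_of_mul_le_mul_left h1 (by linarith)

end MP_cea741_ag.Nod
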