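import Mathlib
import Pool.Agent.Lib.MP_cea741_ag.Nod.Defs

namespace MP_cea741_ag.Nod

open Polynomial MP_cea741_ag

/-- `star` commutes with ring maps. -/
theorem n7_star_map {R S : Type*} [CommRing R] [CommRing S] (φ : R →+* S)
    (F : MvPolynomial (Fin 2) R) :
    star (MvPolynomial.map φ F) = (star F).map (mapRingHom φ) := by
  have h : (star (R := S)).comp (MvPolynomial.map φ) =
      (mapRingHom (mapRingHom φ)).comp (star (R := R)) := by
    refine MvPolynomial.ringHom_ext (fun r => ?_) (fun i => ?_)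
    · simp [star]
    · fin_cases i <;> simp [star]
  have h2 := congrArg (fun f => f F) h
  simpa using h2

/-- ring maps. -/
theorem sc_map {R S : Type*} [CommRing R] [CommRing S] (φ : R →+* S) (F : MvPolynomial (Fin 2) R)
    (i j : ℕ) : sc (MvPolynomial.map φ F) i j = φ (sc F i j) := by
  rw [sc, sc, n7_star_map, coeff_map, coe_mapRingHom, coeff_map]

/-- the value of `star` on `polyOf u`. -/
theorem n7_star_polyOf {R : Type*} [CommRing R] {d : ℕ} (u : Idx d → R) :
    star (polyOf u) = ∑ p, C (C (u p)) * star (MvPolynomial.X 0 ^ (p.1.1 : ℕ) *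
      MvPolynomial.X 1 ^ (p.1.2 : ℕ)) := by
  rw [star, eval₂Hom_polyOf]
  refine Finset.sum_congr rfl fun p _ => ?_
  simp

/-- the value of `sc` on `polyOf u`. -/
theorem n7_sc_polyOf {R : Type*} [CommRing R] {d : ℕ} (u : Idx d → R) (i j : ℕ) :
    sc (polyOf u) i j = ∑ p, u p * sc (MvPolynomial.X 0 ^ (p.1.1 : ℕ) *
      MvPolynomial.X 1 ^ (p.1.2 : ℕ)) i j := by
  rw [sc, n7_star_polyOf, finsetSum_coeff, finsetSum_coeff]
  refine Finset.sum_congr rfl fun p _ => ?_
  rw [coeff_C_mul, coeff_C_mul, sc]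

/-- `sc (polyOf u) i j` is linear in `u` with integral coefficients:
`sc (polyOf u) i j = ∑ p, u p * (c_p : ℤ)`. Hence it commutes with taking the coefficient of
degree `l` of `u : Idx d → R[X]`. -/
theorem sc_coeff {R : Type*} [CommRing R] {d : ℕ} (u : Idx d → R[X]) (i j l : ℕ) :
    (sc (polyOf u) i j).coeff l = sc (polyOf fun p => (u p).coeff l) i j := by
  rw [n7_sc_polyOf, n7_sc_polyOf, finsetSum_coeff]
  refine Finset.sum_congr rfl fun p _ => ?_
  have h : (MvPolynomial.X 0 ^ (p.1.1 : ℕ) * MvPolynomial.X 1 ^ (p.1.2 : ℕ) :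
      MvPolynomial (Fin 2) R[X]) = MvPolynomial.map (C : R →+* R[X])
        (MvPolynomial.X 0 ^ (p.1.1 : ℕ) * MvPolynomial.X 1 ^ (p.1.2 : ℕ)) := by
    simp
  rw [h, sc_map, coeff_mul_C]

end MP_cea741_ag.Nod
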