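import Mathlib
import Pool.Agent.Lib.MP_cea741_ag.Nod.N2
import Pool.Agent.Lib.MP_cea741_ag.Nod.N5
import Pool.Agent.Lib.MP_cea741_ag.Nod.N7

namespace MP_cea741_ag.Nod

open Polynomial MP_cea741_ag

/-- the kernel has no `τ`. -/
theorem kern_C {R : Type*} [CommRing R] (s : R) (N M i j b n : ℕ) :
    kern (C s : R[X]) N M i j b n = C (kern s N M i j b n) := by
  simp [kern, map_sum]

/-- STEP A: the lowest power of `τ` (`τ = X`, coefficients in `R`, `s : R`).
Proof. Let `c i j = sc (polyOf u) i j : R[X]`. By `star_ne` some `c i j ≠ 0` (`polyOf u ≠ 0`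
because of `coeff_polyOf`). Let `μ` be the minimum of `l + q i + p j` over `(i,j,l)` with
`(c i j).coeff l ≠ 0` (Nat.find). Put `h i j = if q i + p j ≤ μ then (c i j).coeff (μ - q i - p j)
else 0` `= (c i j * X^(q i+p j)).coeff μ` (`coeff_mul_X_pow'`). Order condition: take the
coefficient `μ` of the hypothesis (kern_C, finsetSum_coeff, coeff_mul_C). Bounds: if `h i j ≠ 0` let
`l = μ - (q i + p j)`, `G = polyOf (fun p => (u p).coeff l)`; by `sc_coeff` `sc G i j ≠ 0`, and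
`sc G i' j' ≠ 0` implies `μ ≤ l + q i' + p j'`; apply `lemma1` (totalDegree: `polyOf_totalDegree`). -/
theorem stepA {R : Type*} [CommRing R] [IsDomain R] (s : R) (r m d N M p q : ℕ) (hq : 1 ≤ q)
    (hp : 8 * q ≤ p) (u : Idx d → R[X]) (hu : u ≠ 0)
    (hN : ∀ i j, sc (polyOf u) i j ≠ 0 → i ≤ N ∧ j ≤ N)
    (hc : OrdCond (C s : R[X]) r m N M fun i j => sc (polyOf u) i j * X ^ (q * i + p * j)) :
    ∃ h : ℕ → ℕ → R, (∀ i j, h i j ≠ 0 → i ≤ N ∧ j ≤ N) ∧ (∃ i j, h i j ≠ 0) ∧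
      (∀ i j, h i j ≠ 0 → ((i : ℤ) - j) * (p + q) + 9 * p * j ≤ 3 * d * p) ∧
      (∀ i j, h i j ≠ 0 → ((j : ℤ) - i) * (p + q) + 9 * q * i ≤ 3 * d * q) ∧
      OrdCond s r m N M h := by
  classical
  have hF : (polyOf u : MvPolynomial (Fin 2) R[X]) ≠ 0 := by
    intro h0
    apply hu
    funext p
    have := coeff_polyOf u p
    rw [h0] at this
    simpa using this.symm
  obtain ⟨i0, j0, hij0⟩ := star_ne (polyOf u) hF
  have hex : ∃ μ : ℕ, ∃ i j l : ℕ, (sc (polyOf u) i j).coeff l ≠ 0 ∧ l + (q * i + p * j) = μ := by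
    have h1 : ∃ l, (sc (polyOf u) i0 j0).coeff l ≠ 0 := by
      by_contra hcon
      push Not at hcon
      exact hij0 (Polynomial.ext fun l => by simpa using hcon l)
    obtain ⟨l, hl⟩ := h1
    exact ⟨_, i0, j0, l, hl, rfl⟩
  set μ := Nat.find hex with hμ
  have hspec := Nat.find_spec hex
  rw [← hμ] at hspec
  have hmin : ∀ i j l : ℕ, (sc (polyOf u) i j).coeff l ≠ 0 → μ ≤ l + (q * i + p * j) :=
    fun i j l hl => Nat.find_min' hex ⟨i, j, l, hl, rfl⟩
  have key : ∀ i j : ℕ, (sc (polyOf u) i j * X ^ (q * i + p * j)).coeff μ ≠ 0 →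
      q * i + p * j ≤ μ ∧ (sc (polyOf u) i j).coeff (μ - (q * i + p * j)) ≠ 0 := by
    intro i j h1
    rw [coeff_mul_X_pow'] at h1
    split_ifs at h1 with h2
    · exact ⟨h2, h1⟩
    · exact absurd rfl h1
  have bd : ∀ i j : ℕ, (sc (polyOf u) i j * X ^ (q * i + p * j)).coeff μ ≠ 0 →
      ((i : ℤ) - j) * (p + q) + 9 * p * j ≤ 3 * d * p ∧
        ((j : ℤ) - i) * (p + q) + 9 * q * i ≤ 3 * d * q := by
    intro i j h1
    obtain ⟨h2, h3⟩ := key i j h1
    refine lemma1 p q hq hp d (polyOf fun t => (u t).coeff (μ - (q * i + p * j)))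
      (polyOf_totalDegree _) i j ?_ ?_
    · rw [← sc_coeff]
      exact h3
    · intro i' j' h4
      rw [← sc_coeff] at h4
      have := hmin i' j' _ h4
      omega
  refine ⟨fun i j => (sc (polyOf u) i j * X ^ (q * i + p * j)).coeff μ, ?_, ?_,
    fun i j h1 => (bd i j h1).1, fun i j h1 => (bd i j h1).2, ?_⟩
  · intro i j h1
    apply hN
    intro h0
    apply h1
    simp [h0]
  · obtain ⟨i, j, l, hl, he⟩ := hspec
    refine ⟨i, j, ?_⟩
    change (sc (polyOf u) i j * X ^ (q * i + p * j)).coeff μ ≠ 0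
    rw [coeff_mul_X_pow', if_pos (by omega)]
    have : μ - (q * i + p * j) = l := by omega
    rw [this]
    exact hl
  · intro b hb n hn
    have h1 := congrArg (fun P : R[X] => P.coeff μ) (hc b hb n hn)
    simp only [finsetSum_coeff, kern_C, coeff_mul_C, coeff_zero] at h1
    exact h1

end MP_cea741_ag.Nod
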