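import Mathlib
import Pool.Agent.Lib.MP_cea741_ag.ArcA
import Pool.Agent.Lib.MP_cea741_ag.Nod.N8
import Pool.Agent.Lib.MP_cea741_ag.Nod.N11
import Pool.Agent.Lib.MP_cea741_ag.Nod.N13
import Pool.Agent.Lib.MP_cea741_ag.Nod.N14
import Pool.Agent.Lib.MP_cea741_ag.Nod.N19

/-!
# General collisions of fat points: no curve of degree `d < m √r`

Proof. Choose a rational `D` with `3 < D`, `d < m D`, `d D < r m`; `M = ⌈3 D⌉ - 1 ≥ 9`,
`C = D - M/3 ∈ (0, 1/3]`, `A = 3 - C`, `A/C = p/q ≥ 8`.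

1. Node. On the plane with coordinates `t, z`, where `x = t^2 - t`, `y = t^3 - t^2 + z`, the curve
`z = 0` is a branch of the nodal cubic `y^2 - x y - x^3`, and its equation has initial form `t z`
for the weights `q` of `t` and `p` of `z`. For `F` of degree `≤ d` every monomial `t^i z^j` of the
initial form satisfies `(i - j) + 3 A j ≤ d A` and `(j - i) + 3 C i ≤ d C` (`lemma1`).
2. Arc. `t = τ^q X`, `z = τ^p Y / X`, `Y = 1 + σ X^M` at `X = 1`, over the field `k(σ, τ)` (`front`).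
3. `τ → 0` (`stepA`), 4. `Y = 1 + σ ψ`, `σ → 0` (`stepB`), 5. `ψ = X^M (1 + u)`: the first nonzero
coefficient `N_l(X)` of `u^l` has order `≥ r (m - l)` at `X = 1` and its exponents lie in an interval
of length `d D - D^2 l` (`firstN`, `numeric`, `stepC`): a contradiction.
-/

namespace MP_cea741_ag.Nod

open Polynomial MP_cea741_ag

/-- the coefficients of `F*` have bounded index. -/
theorem sc_bound {R : Type*} [CommRing R] (F : MvPolynomial (Fin 2) R) :
    ∃ N, ∀ i j, sc F i j ≠ 0 → i ≤ N ∧ j ≤ N := by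
  refine ⟨(star F).natDegree + ∑ j ∈ Finset.range ((star F).natDegree + 1),
    ((star F).coeff j).natDegree, fun i j hij => ?_⟩
  have hj : j ≤ (star F).natDegree := by
    by_contra hcon
    exact hij (by rw [sc, coeff_eq_zero_of_natDegree_lt (not_le.1 hcon), coeff_zero])
  have hi : i ≤ ((star F).coeff j).natDegree := by
    by_contra hcon
    exact hij (by rw [sc, coeff_eq_zero_of_natDegree_lt (not_le.1 hcon)])
  have : ((star F).coeff j).natDegree ≤ ∑ j ∈ Finset.range ((star F).natDegree + 1),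
      ((star F).coeff j).natDegree :=
    Finset.single_le_sum (f := fun j => ((star F).coeff j).natDegree)
      (fun _ _ => Nat.zero_le _) (Finset.mem_range.2 (by omega))
  omega

/-- **Q1 for `d < m √r`.** -/
theorem main (k : Type*) [Field k] (r m d : ℕ) (hr : 9 < r) (hm : 1 ≤ m)
    (hd : d ^ 2 < m ^ 2 * r) :
    ∃ Φ : MvPolynomial (Fin r) k, Φ ≠ 0 ∧
      ∀ (a : k) (c : Fin r → k), MvPolynomial.eval c Φ ≠ 0 →
        ∀ F : MvPolynomial (Fin 2) k, F.totalDegree ≤ d → F ∈ Arc.arcIdeal a c ^ m → F = 0 := by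
  obtain ⟨M, p, q, hq, hp, hM, hn1, hn2⟩ := params r m d hr hm hd
  obtain ⟨c, hc⟩ := front k r m d M p q hq
  refine Arc.open_of_germ k r m d c fun P hP hmem => ?_
  by_contra hP0
  obtain ⟨u, hu, hu'⟩ := hc P hP hmem hP0
  obtain ⟨N, hN⟩ := sc_bound (polyOf u)
  obtain ⟨h, g1, g2, g3, g4, g5⟩ := stepA (X : k[X]) r m d N M p q hq hp u hu hN (hu' N hN)
  obtain ⟨J, j1, j2, j3, j4, j5⟩ := stepB r m d N M p q h g1 g2 g3 g4 g5
  exact stepC r m d N M p q hq hp hM hn1 hn2 J j1 j2 j3 j4 j5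

end MP_cea741_ag.Nod
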