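import Mathlib
import Pool.Agent.Lib.MP_cea741_ag.ArcA
import Pool.Agent.Lib.MP_cea741_ag.Transfer

namespace MP_cea741_ag.Nod

open MvPolynomial MP_cea741_ag MP_cea741_ag.Arc

/-- `d ≤ m ⌊√r⌋` (degeneration to the normal cone of `y ∏ (x-u^j) = 1`). -/
theorem square (k : Type*) [Field k] (r m d : ℕ) (hr : 9 < r) (hm : 1 ≤ m)
    (hd : d ≤ m * Nat.sqrt r) :
    ∃ Φ : MvPolynomial (Fin r) k, Φ ≠ 0 ∧
      ∀ (a : k) (c : Fin r → k), eval c Φ ≠ 0 →
        ∀ F : MvPolynomial (Fin 2) k, F.totalDegree ≤ d → F ∈ arcIdeal a c ^ m → F = 0 := by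
  set s := Nat.sqrt r with hs
  have hs3 : 3 ≤ s := by
    rw [hs, Nat.le_sqrt]; omega
  have hsr : s ^ 2 ≤ r := by
    rw [hs, pow_two]; exact Nat.sqrt_le r
  obtain ⟨Φ, hΦ, h⟩ := exists_open k r m s hs3 hsr hr hm
  refine ⟨Φ, hΦ, fun a c hc F hF hmem => ?_⟩
  have h5 := eta_mem r m a c F hmem
  set τ : MvPolynomial (Fin 2) k →ₐ[k] MvPolynomial (Fin 2) k :=
    aeval ![X 0 + C a, X 1] with hτ
  set τ' : MvPolynomial (Fin 2) k →ₐ[k] MvPolynomial (Fin 2) k :=
    aeval ![X 0 - C a, X 1] with hτ'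
  have hττ : τ'.comp τ = AlgHom.id k _ := by
    apply MvPolynomial.algHom_ext
    intro i
    fin_cases i
    · simp [hτ, hτ', ← algebraMap_eq]
    · simp [hτ, hτ']
  set F' := τ F with hF'
  have hF'deg : F'.totalDegree ≤ m * s := by
    refine (totalDegree_aeval_le _ ?_ F).trans (hF.trans hd)
    intro i
    fin_cases i
    · refine (totalDegree_add _ _).trans ?_
      simp [totalDegree_X, totalDegree_C]
    · simp [totalDegree_X]
  have hv := h c hc (fun p => F'.coeff (ex p)) (by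
    rw [Wpol_eq, polyOf_coeff F' hF'deg]
    exact h5)
  have hF'0 : F' = 0 := by
    rw [← polyOf_coeff F' hF'deg, hv]
    simp [polyOf]
  have := congrArg τ' hF'0
  rw [hF', map_zero] at this
  have h6 : τ' (τ F) = F := by
    have := congrArg (fun φ => φ F) hττ
    simpa using this
  rw [← h6]
  exact this

end MP_cea741_ag.Nod
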